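import Pool.Agent.Q273.QP.Stm2

/-!
# The laws of the project QP in terms of heights, proximity and truncated counting functions
-/

set_option autoImplicit false

open MeasureTheory Polynomial

namespace Q273.QP

/-- The absolute logarithmic height `(log M(f)) / deg f` of the roots of an irreducible `f ∈ ℤ[X]`
(`M` is the Mahler measure). -/
noncomputable def height (f : ℤ[X]) : ℝ :=
  Real.log (f.map (Int.castRingHom ℂ)).mahlerMeasure / f.natDegree

/-- The proximity function of the real point `ξ`: the average over the conjugates `z` of `x`, i.e.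
the roots of `f`, of `log (max(1,|z|) max(1,|ξ|) / |ξ - z|)`. -/
noncomputable def proxR (ξ : ℝ) (f : ℤ[X]) : ℝ :=
  ((f.map (Int.castRingHom ℂ)).roots.map fun z =>
    Real.log (max 1 ‖z‖ * max 1 |ξ| / ‖(ξ : ℂ) - z‖)).sum / f.natDegree

/-- The proximity function of the `p`-adic integer `η`, `-log |f(η)|_p / deg f`: for primitive `f`
this is the average over the conjugates `z` of `x` over `ℚ_p` of `log (max(1,|z|_p) / |η - z|_p)`. -/
noncomputable def proxP (p : Nat.Primes) (η : @PadicInt p.1 ⟨p.2⟩) (f : ℤ[X]) : ℝ :=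
  haveI : Fact p.1.Prime := ⟨p.2⟩
  Real.log ‖aeval η f‖⁻¹ / f.natDegree

/-- the proximity function of the adelic point `w` at the infinite place and the primes of `V` -/
noncomputable def prox (V : Finset Nat.Primes) (w : ℝ × ZHat) (f : ℤ[X]) : ℝ :=
  proxR w.1 f + ∑ p ∈ V, proxP p (w.2 p) f

/-- the value at `(u, v)` of the binary form of degree `deg f` given by `f` -/
def hv (u v : ℤ) (f : ℤ[X]) : ℤ :=
  ∑ i ∈ Finset.range (f.natDegree + 1), f.coeff i * u ^ i * v ^ (f.natDegree - i)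

/-- `(1 / deg f) ∑ log p`, the sum over the primes `p` outside `S` which divide `hv u v f`. -/
noncomputable def N1 (S : Finset ℕ) (u v : ℤ) (f : ℤ[X]) : ℝ :=
  (∑ p ∈ (hv u v f).natAbs.primeFactors \ S, Real.log p) / f.natDegree

/-- the proximity function of the rational point `(u : v)` at the infinite place and the primes of
`S` -/
noncomputable def lam (S : Finset ℕ) (u v : ℤ) (f : ℤ[X]) : ℝ :=
  (((f.map (Int.castRingHom ℂ)).roots.map fun z =>
    Real.log (max 1 ‖z‖ * max |(u : ℝ)| |(v : ℝ)| / ‖(u : ℂ) - v * z‖)).sum +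
      ∑ p ∈ S, (padicValInt p (hv u v f) : ℝ) * Real.log p) / f.natDegree

open Classical in
/-- The logarithmic discriminant `d(x)` of the field `ℚ(x)`. -/
noncomputable def logDisc (x : ℂ) : ℝ :=
  if _ : NumberField (IntermediateField.adjoin ℚ ({x} : Set ℂ)) then
    Real.log |(NumberField.discr (IntermediateField.adjoin ℚ ({x} : Set ℂ)) : ℝ)| /
      Module.finrank ℚ (IntermediateField.adjoin ℚ ({x} : Set ℂ)) else 0

/-- `f` is the minimal polynomial over `ℤ` of the algebraic number `x` of degree at most two. -/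
def IsPt (f : ℤ[X]) (x : ℂ) : Prop :=
  Irreducible f ∧ 1 ≤ f.natDegree ∧ f.natDegree ≤ 2 ∧ aeval x f = 0

/-- (1): one rational point -/
def Law1 (V : Finset Nat.Primes) (w : ℝ × ZHat) : Prop :=
  ∀ (S : Finset ℕ) (u v : ℤ), IsCoprime u v → ∀ ε : ℝ, 0 < ε → ∃ C : ℝ, ∀ (f : ℤ[X]) (x : ℂ),
    IsPt f x → hv u v f ≠ 0 → prox V w f + (height f - N1 S u v f) ≤
      (2 + ε) * height f + logDisc x / 2 + C

/-- (2): two rational points -/
def Law2 (V : Finset Nat.Primes) (w : ℝ × ZHat) : Prop :=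
  ∀ (S : Finset ℕ) (u v u' v' : ℤ), u * v' - u' * v ≠ 0 → ∀ ε : ℝ, 0 < ε → ∃ C : ℝ,
    ∀ (f : ℤ[X]) (x : ℂ), IsPt f x → hv u v f ≠ 0 → hv u' v' f ≠ 0 →
      prox V w f + (height f - N1 S u v f) + (height f - N1 S u' v' f) ≤
        ((f.natDegree : ℝ) + 1 + ε) * height f + C

/-- (3): the number three is optimal in (2), even with one rational point -/
def Law3 (w : ℝ × ZHat) : Prop :=
  ∃ C : ℝ, {f : ℤ[X] | Irreducible f ∧ f.natDegree = 2 ∧
    3 * height f - C ≤ proxR w.1 f + (height f - N1 ∅ 1 0 f)}.Infinite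

/-- (4): the height inequality for a divisor of `q` rational points -/
def Law4 (V : Finset Nat.Primes) (w : ℝ × ZHat) : Prop :=
  ∀ (S : Finset ℕ) (q : ℕ) (u v : Fin q → ℤ), (∀ p ∈ S, p.Prime) → (∀ i, IsCoprime (u i) (v i)) →
    (∀ i j, i ≠ j → u i * v j - u j * v i ≠ 0) → ∀ ε : ℝ, 0 < ε → ∃ C : ℝ,
      ∀ (f : ℤ[X]) (x : ℂ), IsPt f x → (∀ i, hv (u i) (v i) f ≠ 0) →
        (3 * (q : ℝ) - 2) * height f ≤ (q + 2) * prox V w f →
          ∑ i, (height f - N1 S (u i) (v i) f) + (-2) * height f ≤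
            logDisc x + ε * height f + C ∧
          ∑ i, lam S (u i) (v i) f + (-2) * height f ≤ logDisc x + ε * height f + C

/-- the conductor of the triple `(x, 1 - x, -1)` over the field `K` -/
noncomputable def cond {K : Type} [Field K] [NumberField K] (x : Fin 3 → K) : ℝ :=
  (∑ᶠ (v : IsDedekindDomain.HeightOneSpectrum (NumberField.RingOfIntegers K))
      (_ : ¬ (NumberField.FinitePlace.mk v (x 0) = NumberField.FinitePlace.mk v (x 1) ∧
      NumberField.FinitePlace.mk v (x 1) = NumberField.FinitePlace.mk v (x 2))),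
    Real.log (Ideal.absNorm v.asIdeal : ℝ)) / (Module.finrank ℚ K : ℝ)

/-- the height of a triple over the field `K` -/
noncomputable def hgt {K : Type} [Field K] [NumberField K] (x : Fin 3 → K) : ℝ :=
  (∑ w : NumberField.InfinitePlace K,
      (w.mult : ℝ) * Real.log (max (w (x 0)) (max (w (x 1)) (w (x 2)))) +
    ∑ᶠ v : IsDedekindDomain.HeightOneSpectrum (NumberField.RingOfIntegers K), Real.log
      (max (NumberField.FinitePlace.mk v (x 0)) (max (NumberField.FinitePlace.mk v (x 1))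
        (NumberField.FinitePlace.mk v (x 2))))) / (Module.finrank ℚ K : ℝ)

/-- job COND -/
def S_COND : Prop := ∀ (K : Type) [Field K] [NumberField K] (x : K) (f : ℤ[X]), x ≠ 0 → x ≠ 1 →
  Irreducible f → aeval x f = 0 → f.natDegree = Module.finrank ℚ K →
    hv 0 1 f ≠ 0 ∧ hv 1 1 f ≠ 0 ∧ hv 1 0 f ≠ 0 ∧
    N1 ∅ 0 1 f + N1 ∅ 1 1 f + N1 ∅ 1 0 f ≤ cond ![x, 1 - x, -1] ∧
    |hgt ![x, 1 - x, -1] - height f| ≤ Real.log 2

/-- job LAW -/
def S_LAWQ : Prop := ∀ [MeasurableSpace ZHat] [BorelSpace ZHat] (μ : Measure ZHat)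
  [IsFiniteMeasure μ] [μ.IsAddLeftInvariant], ∀ᵐ w : ℝ × ZHat ∂(volume.prod μ),
    ∀ V : Finset Nat.Primes, Law1 V w ∧ Law2 V w ∧ Law3 w ∧ Law4 V w

end Q273.QP
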