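import Pool.Agent.Q273.QP.All
import Pool.Agent.Q227.QP.COND2
import Pool.Agent.Q149.V.BC
import Pool.Agent.Q273.TR.Fin

/-!
# The uniform abc inequality for quadratic fields from the laws
-/

set_option autoImplicit false

open MeasureTheory Polynomial NumberField

namespace Q273.QP

lemma logDisc_emb {K : Type} [Field K] [NumberField K] (φ : K →ₐ[ℚ] ℂ) (x : K) (f : ℤ[X])
    (hf : Irreducible f) (hd : f.natDegree = Module.finrank ℚ K) (hx : aeval x f = 0) :
    aeval (φ x) f = 0 ∧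
      logDisc (φ x) = Real.log |(discr K : ℝ)| / (Module.finrank ℚ K : ℝ) := by
  have hK : 1 ≤ Module.finrank ℚ K := Module.finrank_pos
  have hz : aeval (φ x) f = 0 := by
    have h1 : aeval (φ x) f = φ (aeval x f) := by
      have h2 := Polynomial.aeval_algHom_apply (φ.restrictScalars ℤ) x f
      simpa using h2
    rw [h1, hx, map_zero]
  refine ⟨hz, ?_⟩
  have hmin : Q273.V.IsMin (Module.finrank ℚ K) f (φ x) := ⟨hf, hd, hz⟩
  have h1 := Pool.Agent.Q149.V.mi_finrank hK hmin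
  have hnf := Pool.Agent.Q149.V.mi_numberField hK hmin
  have h2 : Module.finrank ℚ φ.fieldRange = Module.finrank ℚ K :=
    (AlgHom.equivFieldRange φ).toLinearEquiv.finrank_eq.symm
  have : FiniteDimensional ℚ φ.fieldRange :=
    LinearEquiv.finiteDimensional (AlgHom.equivFieldRange φ).toLinearEquiv
  have h3 : IntermediateField.adjoin ℚ ({φ x} : Set ℂ) = φ.fieldRange := by
    apply IntermediateField.eq_of_le_of_finrank_eq
    · rw [IntermediateField.adjoin_le_iff, Set.singleton_subset_iff]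
      exact ⟨x, rfl⟩
    · rw [h1, h2]
  have key : ∀ F : IntermediateField ℚ ℂ, F = φ.fieldRange → ∀ _ : NumberField F,
      discr F = discr K := by
    rintro F rfl _
    exact (discr_eq_discr_of_algEquiv K (AlgHom.equivFieldRange φ)).symm
  unfold logDisc
  rw [dif_pos hnf, key _ h3 hnf, h1]

/-- the two inequalities -/
theorem abcq {V : Finset Nat.Primes} {w : ℝ × ZHat} (h1 : Law1 V w) (h2 : Law2 V w) {ε : ℝ}
    (hε : 0 < ε) : ∃ C : ℝ, ∀ (K : Type) [Field K] [NumberField K], Module.finrank ℚ K = 2 →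
      ∀ (x : K) (f : ℤ[X]), Irreducible f → f.natDegree = 2 → aeval x f = 0 →
        5 / 2 * (prox V w f - hgt ![x, 1 - x, -1]) ≤
          cond ![x, 1 - x, -1] + Real.log |(discr K : ℝ)| / (Module.finrank ℚ K : ℝ) +
            ε * hgt ![x, 1 - x, -1] + C ∧
        3 / 2 * (prox V w f - hgt ![x, 1 - x, -1]) ≤
          cond ![x, 1 - x, -1] + ε * hgt ![x, 1 - x, -1] + C := by
  obtain ⟨C1, hC1⟩ := h1 ∅ 0 1 ⟨0, 1, by ring⟩ (2 / 5 * ε) (by positivity)
  obtain ⟨C2, hC2⟩ := h1 ∅ 1 1 ⟨0, 1, by ring⟩ (2 / 5 * ε) (by positivity)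
  obtain ⟨C3, hC3⟩ := h1 ∅ 1 0 ⟨1, 0, by ring⟩ (2 / 5 * ε) (by positivity)
  obtain ⟨D1, hD1⟩ := h2 ∅ 0 1 1 1 (by norm_num) (2 / 5 * ε) (by positivity)
  obtain ⟨D2, hD2⟩ := h2 ∅ 0 1 1 0 (by norm_num) (2 / 5 * ε) (by positivity)
  obtain ⟨D3, hD3⟩ := h2 ∅ 1 1 1 0 (by norm_num) (2 / 5 * ε) (by positivity)
  refine ⟨|C1| + |C2| + |C3| + |D1| + |D2| + |D3| + (5 / 2 + ε) * Real.log 2,
    fun K _ _ hK x f hf hd hx => ?_⟩
  have hx0 : x ≠ 0 := by
    rintro rfl
    have h3 : f.coeff 0 = 0 := by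
      rw [aeval_def, eval₂_at_zero] at hx
      exact (map_eq_zero_iff _ (FaithfulSMul.algebraMap_injective ℤ K)).1 hx
    have h4 : (X : ℤ[X]) ∣ f := X_dvd_iff.2 h3
    obtain ⟨g, hg⟩ := h4
    rcases hf.isUnit_or_isUnit hg with h5 | h5
    · exact not_isUnit_X h5
    · have h6 := natDegree_eq_zero_of_isUnit h5
      rw [hg, natDegree_X_mul h5.ne_zero, h6] at hd
      omega
  have hx1 : x ≠ 1 := by
    rintro rfl
    have h3 : f.eval 1 = 0 := by
      rw [aeval_def, eval₂_at_one] at hx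
      exact (map_eq_zero_iff _ (FaithfulSMul.algebraMap_injective ℤ K)).1 hx
    obtain ⟨g, hg⟩ := dvd_iff_isRoot.2 h3
    rcases hf.isUnit_or_isUnit hg with h5 | h5
    · exact not_isUnit_X_sub_C _ h5
    · have h6 := natDegree_eq_zero_of_isUnit h5
      rw [hg, natDegree_mul (X_sub_C_ne_zero _) h5.ne_zero, h6, natDegree_X_sub_C] at hd
      omega
  obtain ⟨v0, v1, v2, hN, hH⟩ := Q227.QP.cond K x f hx0 hx1 hf hx (by rw [hd, hK])
  have φ : K →ₐ[ℚ] ℂ := IsAlgClosed.lift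
  obtain ⟨hz, hdisc⟩ := logDisc_emb φ x f hf (by rw [hd, hK]) hx
  have hpt : IsPt f (φ x) := ⟨hf, by omega, by omega, hz⟩
  have e1 := hC1 f (φ x) hpt v0
  have e2 := hC2 f (φ x) hpt v1
  have e3 := hC3 f (φ x) hpt v2
  have g1 := hD1 f (φ x) hpt v0 v1
  have g2 := hD2 f (φ x) hpt v0 v2
  have g3 := hD3 f (φ x) hpt v1 v2
  rw [hd] at g1 g2 g3
  rw [hdisc] at e1 e2 e3
  push_cast at g1 g2 g3
  have hh : 0 ≤ height f := by
    unfold height
    refine div_nonneg (Real.log_nonneg ?_) (Nat.cast_nonneg _)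
    exact Q273.TR.one_le_mah f hf.ne_zero
  obtain ⟨a1, a2⟩ := abs_le.1 hH
  have b1 := le_abs_self C1
  have b2 := le_abs_self C2
  have b3 := le_abs_self C3
  have b4 := le_abs_self D1
  have b5 := le_abs_self D2
  have b6 := le_abs_self D3
  have c1 := abs_nonneg C1
  have c2 := abs_nonneg C2
  have c3 := abs_nonneg C3
  have c4 := abs_nonneg D1
  have c5 := abs_nonneg D2
  have c6 := abs_nonneg D3
  have hl2 : 0 < Real.log 2 := Real.log_pos (by norm_num)
  have hεh : ε * height f ≤ ε * (hgt ![x, 1 - x, -1] + Real.log 2) :=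
    mul_le_mul_of_nonneg_left (by linarith) hε.le
  have hεh0 : 0 ≤ ε * height f := mul_nonneg hε.le hh
  set m := prox V w f
  set h := height f
  set H := hgt ![x, 1 - x, -1]
  set N := cond ![x, 1 - x, -1]
  constructor
  · nlinarith
  · nlinarith

end Q273.QP
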