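import Pool.Agent.Q273.QP.Sum

/-!
# Polynomials with prescribed leading coefficient and discriminant: the measure
-/

set_option autoImplicit false

namespace Q273.QP

open Finset MeasureTheory

/-- the coefficients of `a x² + b x y + c y²` at `x = s X - t Z`, `y = - v X + u Z` -/
def TA (v s a b c : ℤ) : ℤ := a * s ^ 2 - b * s * v + c * v ^ 2

/-- the middle coefficient -/
def TB (u v t s a b c : ℤ) : ℤ := -2 * a * s * t + b * (s * u + t * v) - 2 * c * u * v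

/-- the last coefficient -/
def TC (u t a b c : ℤ) : ℤ := a * t ^ 2 - b * t * u + c * u ^ 2

lemma dsc_T (u v t s a b c : ℤ) (h : u * s - v * t = 1) :
    dsc (TA v s a b c) (TB u v t s a b c) (TC u t a b c) = dsc a b c := by
  unfold dsc TA TB TC
  have e : b ^ 2 - 4 * a * c = (u * s - v * t) ^ 2 * (b ^ 2 - 4 * a * c) := by rw [h]; ring
  rw [e]; ring

lemma prim_T (u v t s a b c : ℤ) (h : u * s - v * t = 1) (hp : Prim a b c) :
    Prim (TA v s a b c) (TB u v t s a b c) (TC u t a b c) := by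
  obtain ⟨x, y, z, hx⟩ := hp
  refine ⟨x * u ^ 2 + y * (2 * u * t) + z * t ^ 2, x * (u * v) + y * (u * s + t * v) + z * (t * s),
    x * v ^ 2 + y * (2 * v * s) + z * s ^ 2, ?_⟩
  unfold TA TB TC
  have e : (1 : ℤ) = (u * s - v * t) ^ 2 * (x * a + y * b + z * c) := by rw [h, hx]; ring
  rw [e]; ring

lemma prim_ne {p : ℕ} (hp : p.Prime) {a b c : ℤ} (h : Prim a b c) (ha : (p : ℤ) ∣ a)
    (hb : (p : ℤ) ∣ b) : ¬ (p : ℤ) ∣ c := by
  intro hc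
  obtain ⟨x, y, z, hx⟩ := h
  have h1 : (p : ℤ) ∣ 1 := by
    rw [← hx]
    exact dvd_add (dvd_add (Dvd.dvd.mul_left ha x) (Dvd.dvd.mul_left hb y)) (Dvd.dvd.mul_left hc z)
  have h2 := Int.isUnit_iff.1 (isUnit_of_dvd_one h1)
  have h3 := hp.two_le
  omega

/-- if `a` and `b` are divisible by a high power of `p` then the values of `P` at the points away
from the rational point are not small -/
lemma vP_ge (p : Nat.Primes) (n : ℕ) (u v t s a b c : ℤ) (hp : Prim a b c)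
    (ha : ((p : ℕ) : ℤ) ^ (2 * n + 1) ∣ a) (hb : ((p : ℕ) : ℤ) ^ (2 * n + 1) ∣ b)
    (η : @PadicInt p.1 ⟨p.2⟩) (hη : (p : ℝ) ^ (-(n : ℤ)) ≤ lP p (-v) u η) :
    (p : ℝ) ^ (-((2 * n : ℕ) : ℤ)) ≤
      vP p (TA v s a b c) (TB u v t s a b c) (TC u t a b c) η := by
  haveI : Fact p.1.Prime := ⟨p.2⟩
  have hp0 : (0 : ℝ) < (p : ℝ) := by exact_mod_cast p.2.pos
  have hp1 : (1 : ℝ) < (p : ℝ) := by exact_mod_cast p.2.one_lt
  have hc : ¬ ((p : ℕ) : ℤ) ∣ c := by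
    refine prim_ne p.2 hp (dvd_trans ?_ ha) (dvd_trans ?_ hb) <;> exact dvd_pow_self _ (by omega)
  unfold lP at hη
  unfold vP
  have e : ((TA v s a b c : ℤ) : ℤ_[p.1]) * η ^ 2 + (TB u v t s a b c : ℤ) * η + (TC u t a b c : ℤ) =
      (c : ℤ_[p.1]) * (((-v : ℤ) : ℤ_[p.1]) * η + (u : ℤ)) ^ 2 +
      (((a : ℤ) : ℤ_[p.1]) * ((s : ℤ_[p.1]) * η - t) ^ 2 + (b : ℤ_[p.1]) *
        (((s : ℤ_[p.1]) * η - t) * (((-v : ℤ) : ℤ_[p.1]) * η + (u : ℤ)))) := by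
    unfold TA TB TC
    push_cast
    ring
  rw [e]
  set ℓ : ℤ_[p.1] := ((-v : ℤ) : ℤ_[p.1]) * η + (u : ℤ) with hℓ
  set m : ℤ_[p.1] := (s : ℤ_[p.1]) * η - t with hm
  have hcn : ‖(c : ℤ_[p.1])‖ = 1 := by
    have h0 : ¬ ‖(c : ℤ_[p.1])‖ < 1 := fun h => hc ((PadicInt.norm_int_lt_one_iff_dvd c).1 h)
    exact le_antisymm (PadicInt.norm_le_one _) (not_lt.1 h0)
  have h1 : ‖(c : ℤ_[p.1]) * ℓ ^ 2‖ = ‖ℓ‖ ^ 2 := by rw [norm_mul, hcn, one_mul, norm_pow]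
  have h2 : (p : ℝ) ^ (-((2 * n : ℕ) : ℤ)) ≤ ‖ℓ‖ ^ 2 := by
    have : (p : ℝ) ^ (-((2 * n : ℕ) : ℤ)) = ((p : ℝ) ^ (-(n : ℤ))) ^ 2 := by
      rw [← zpow_natCast, ← zpow_mul]
      congr 1
      push_cast; ring
    rw [this]
    exact pow_le_pow_left₀ (by positivity) hη 2
  have h3 : ‖(a : ℤ_[p.1]) * m ^ 2 + (b : ℤ_[p.1]) * (m * ℓ)‖ ≤
      (p : ℝ) ^ (-((2 * n + 1 : ℕ) : ℤ)) := by
    refine (PadicInt.nonarchimedean _ _).trans (max_le ?_ ?_)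
    · rw [norm_mul]
      have h4 : ‖(a : ℤ_[p.1])‖ ≤ (p : ℝ) ^ (-((2 * n + 1 : ℕ) : ℤ)) :=
        PadicInt.norm_int_le_pow_iff_dvd.2 ha
      calc _ ≤ (p : ℝ) ^ (-((2 * n + 1 : ℕ) : ℤ)) * 1 :=
            mul_le_mul h4 (PadicInt.norm_le_one _) (norm_nonneg _) (by positivity)
        _ = _ := mul_one _
    · rw [norm_mul]
      have h4 : ‖(b : ℤ_[p.1])‖ ≤ (p : ℝ) ^ (-((2 * n + 1 : ℕ) : ℤ)) :=
        PadicInt.norm_int_le_pow_iff_dvd.2 hb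
      calc _ ≤ (p : ℝ) ^ (-((2 * n + 1 : ℕ) : ℤ)) * 1 :=
            mul_le_mul h4 (PadicInt.norm_le_one _) (norm_nonneg _) (by positivity)
        _ = _ := mul_one _
  have h5 : (p : ℝ) ^ (-((2 * n + 1 : ℕ) : ℤ)) < (p : ℝ) ^ (-((2 * n : ℕ) : ℤ)) :=
    zpow_lt_zpow_right₀ hp1 (by omega)
  have h6 : ‖(a : ℤ_[p.1]) * m ^ 2 + (b : ℤ_[p.1]) * (m * ℓ)‖ < ‖(c : ℤ_[p.1]) * ℓ ^ 2‖ := by
    rw [h1]; linarith
  have h7 : ‖(c : ℤ_[p.1]) * ℓ ^ 2 + ((a : ℤ_[p.1]) * m ^ 2 + (b : ℤ_[p.1]) * (m * ℓ))‖ =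
      max ‖(c : ℤ_[p.1]) * ℓ ^ 2‖ ‖(a : ℤ_[p.1]) * m ^ 2 + (b : ℤ_[p.1]) * (m * ℓ)‖ :=
    PadicInt.norm_add_eq_max_of_ne h6.ne'
  rw [h7, max_eq_left h6.le, h1]
  exact h2

open scoped Classical in
/-- the places of `V` where the leading and the middle coefficient are not both highly divisible -/
noncomputable def Ws (V : Finset Nat.Primes) (L : ℕ) (a b : ℤ) : Finset Nat.Primes :=
  V.filter fun p => ¬ (((p : ℕ) : ℤ) ^ L ∣ a ∧ ((p : ℕ) : ℤ) ^ L ∣ b)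

lemma muBound (hmeas : S_MEAS) [MeasurableSpace ZHat] [BorelSpace ZHat] (μ : Measure ZHat)
    [IsFiniteMeasure μ] [μ.IsAddLeftInvariant] (V : Finset Nat.Primes) (n : ℕ)
    (u v t s a b c : ℤ) (h : u * s - v * t = 1) (hp : Prim a b c) (hd : dsc a b c ≠ 0)
    (j : Nat.Primes → ℕ) :
    μ {η : ZHat | ∀ p ∈ V, (p : ℝ) ^ (-(n : ℤ)) ≤ lP p (-v) u (η p) ∧
        vP p (TA v s a b c) (TB u v t s a b c) (TC u t a b c) (η p) ≤ (p : ℝ) ^ (-(j p : ℤ))} ≤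
      μ Set.univ * ENNReal.ofReal (2 ^ V.card * (∏ p ∈ V, (p : ℝ)) ^ (2 * n) *
        (∏ p ∈ V, (p : ℝ) ^ (-(j p : ℤ))) * sqV (Ws V (2 * n + 1) a b) (dsc a b c)) := by
  classical
  by_cases hj : ∀ p ∈ V, p ∉ Ws V (2 * n + 1) a b → j p ≤ 2 * n
  · have h1 : {η : ZHat | ∀ p ∈ V, (p : ℝ) ^ (-(n : ℤ)) ≤ lP p (-v) u (η p) ∧
        vP p (TA v s a b c) (TB u v t s a b c) (TC u t a b c) (η p) ≤ (p : ℝ) ^ (-(j p : ℤ))} ⊆
        {η : ZHat | ∀ p ∈ Ws V (2 * n + 1) a b,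
          vP p (TA v s a b c) (TB u v t s a b c) (TC u t a b c) (η p) ≤
            (p : ℝ) ^ (-(j p : ℤ))} := by
      intro η hη p hp
      exact (hη p (Finset.mem_filter.1 hp).1).2
    have h2 := hmeas μ (Ws V (2 * n + 1) a b) _ _ _ (prim_T u v t s a b c h hp)
      (by rw [dsc_T _ _ _ _ _ _ _ h]; exact hd) j
    rw [dsc_T _ _ _ _ _ _ _ h] at h2
    refine (measure_mono h1).trans (h2.trans ?_)
    refine mul_le_mul' le_rfl (ENNReal.ofReal_le_ofReal ?_)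
    refine mul_le_mul_of_nonneg_right ?_ (sqV_pos _ _).le
    have hWV : Ws V (2 * n + 1) a b ⊆ V := Finset.filter_subset _ _
    have e1 : (2 : ℝ) ^ (Ws V (2 * n + 1) a b).card ≤ 2 ^ V.card :=
      pow_le_pow_right₀ (by norm_num) (Finset.card_le_card hWV)
    have hpos : ∀ p : Nat.Primes, (0 : ℝ) < (p : ℝ) := fun p => by exact_mod_cast p.2.pos
    have hone : ∀ p : Nat.Primes, (1 : ℝ) ≤ (p : ℝ) := fun p => by exact_mod_cast p.2.one_le
    have e2 : ∏ p ∈ Ws V (2 * n + 1) a b, (p : ℝ) ^ (-(j p : ℤ)) ≤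
        (∏ p ∈ V, (p : ℝ)) ^ (2 * n) * ∏ p ∈ V, (p : ℝ) ^ (-(j p : ℤ)) := by
      have e3 : ∏ p ∈ V, (p : ℝ) ^ (-(j p : ℤ)) =
          (∏ p ∈ V \ Ws V (2 * n + 1) a b, (p : ℝ) ^ (-(j p : ℤ))) *
            ∏ p ∈ Ws V (2 * n + 1) a b, (p : ℝ) ^ (-(j p : ℤ)) :=
        (Finset.prod_sdiff hWV).symm
      rw [e3, ← mul_assoc]
      refine le_mul_of_one_le_left (Finset.prod_nonneg fun p _ => by
        have := hpos p
        positivity) ?_
      have e4 : (∏ p ∈ V, (p : ℝ)) ^ (2 * n) =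
          (∏ p ∈ V \ Ws V (2 * n + 1) a b, (p : ℝ) ^ (2 * n)) *
            ∏ p ∈ Ws V (2 * n + 1) a b, (p : ℝ) ^ (2 * n) := by
        rw [← Finset.prod_pow, Finset.prod_sdiff hWV]
      rw [e4, mul_right_comm, ← Finset.prod_mul_distrib]
      refine one_le_mul_of_one_le_of_one_le ?_ ?_
      · refine Finset.one_le_prod fun p hp => ?_
        rw [mem_sdiff] at hp
        have h5 := hj p hp.1 hp.2
        rw [← zpow_natCast, ← zpow_add₀ (hpos p).ne']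
        exact one_le_zpow₀ (hone p) (by push_cast; omega)
      · exact Finset.one_le_prod fun p _ => one_le_pow₀ (hone p)
    calc (2 : ℝ) ^ (Ws V (2 * n + 1) a b).card *
          ∏ p ∈ Ws V (2 * n + 1) a b, (p : ℝ) ^ (-(j p : ℤ))
        ≤ 2 ^ V.card * ((∏ p ∈ V, (p : ℝ)) ^ (2 * n) * ∏ p ∈ V, (p : ℝ) ^ (-(j p : ℤ))) := by
          refine mul_le_mul e1 e2 (Finset.prod_nonneg fun p _ => by
            have := hpos p
            positivity) (by positivity)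
      _ = _ := by ring
  · push Not at hj
    obtain ⟨p, hpV, hpW, hjp⟩ := hj
    have h1 : {η : ZHat | ∀ p ∈ V, (p : ℝ) ^ (-(n : ℤ)) ≤ lP p (-v) u (η p) ∧
        vP p (TA v s a b c) (TB u v t s a b c) (TC u t a b c) (η p) ≤ (p : ℝ) ^ (-(j p : ℤ))} =
        ∅ := by
      rw [Set.eq_empty_iff_forall_notMem]
      intro η hη
      obtain ⟨h2, h3⟩ := hη p hpV
      have h4 : ((p : ℕ) : ℤ) ^ (2 * n + 1) ∣ a ∧ ((p : ℕ) : ℤ) ^ (2 * n + 1) ∣ b := by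
        by_contra hne
        exact hpW (Finset.mem_filter.2 ⟨hpV, hne⟩)
      have h5 := vP_ge p n u v t s a b c hp h4.1 h4.2 (η p) h2
      have hp1 : (1 : ℝ) < (p : ℝ) := by exact_mod_cast p.2.one_lt
      have h6 : (p : ℝ) ^ (-(j p : ℤ)) < (p : ℝ) ^ (-((2 * n : ℕ) : ℤ)) :=
        zpow_lt_zpow_right₀ hp1 (by omega)
      linarith
    rw [h1, measure_empty]
    exact zero_le

/-- the polynomials -/
abbrev Idx : Type := {x : ℤ × ℤ × ℤ // Prim x.1 x.2.1 x.2.2 ∧ x.1 ≠ 0 ∧ dsc x.1 x.2.1 x.2.2 ≠ 0}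

/-- the height of the polynomial -/
def Hx (x : ℤ × ℤ × ℤ) : ℕ := max (max x.1.natAbs x.2.1.natAbs) x.2.2.natAbs

/-- the box -/
noncomputable def box (X : ℕ) : Finset (ℤ × ℤ × ℤ) :=
  Finset.Icc (-(X : ℤ)) X ×ˢ Finset.Icc (-(X : ℤ)) X ×ˢ Finset.Icc (-(X : ℤ)) X

lemma mem_box {x : ℤ × ℤ × ℤ} {X : ℕ} : x ∈ box X ↔ Hx x ≤ X := by
  unfold box Hx
  rw [mem_product, mem_product, mem_Icc, mem_Icc, mem_Icc]
  omega

lemma hfin {q : ℤ × ℤ × ℤ → Prop} (X : ℕ) : {i : {x // q x} | Hx i.1 ≤ X}.Finite := by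
  refine Set.Finite.of_finite_image (f := Subtype.val) ?_ Subtype.val_injective.injOn
  refine (box X).finite_toSet.subset ?_
  rintro _ ⟨i, hi, rfl⟩
  exact mem_coe.2 (mem_box.2 hi)

lemma card_hfin {q : ℤ × ℤ × ℤ → Prop} (X : ℕ) :
    (hfin (q := q) X).toFinset.card ≤ (X + 8) ^ 8 := by
  classical
  have h1 : (hfin (q := q) X).toFinset.card ≤ (box X).card := by
    refine Finset.card_le_card_of_injOn Subtype.val ?_ Subtype.val_injective.injOn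
    intro i hi
    rw [mem_coe, Set.Finite.mem_toFinset] at hi
    exact mem_coe.2 (mem_box.2 hi)
  refine h1.trans ?_
  unfold box
  rw [card_product, card_product, Int.card_Icc]
  have h2 : ((X : ℤ) + 1 - -(X : ℤ)).toNat = 2 * X + 1 := by omega
  rw [h2]
  calc (2 * X + 1) * ((2 * X + 1) * (2 * X + 1)) ≤ (2 * (X + 8)) ^ 3 := by
        rw [pow_succ, pow_two]
        nlinarith
    _ = 8 * (X + 8) ^ 3 := by ring
    _ ≤ (X + 8) * (X + 8) ^ 3 := Nat.mul_le_mul_right _ (by omega)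
    _ = (X + 8) ^ 4 := by ring
    _ ≤ (X + 8) ^ 8 := Nat.pow_le_pow_right (by omega) (by norm_num)

lemma dsc_abs_le {x : ℤ × ℤ × ℤ} {X : ℕ} (h : Hx x ≤ X) :
    |dsc x.1 x.2.1 x.2.2| ≤ ((5 * X ^ 2 : ℕ) : ℤ) := by
  have hb := mem_box.2 h
  unfold box at hb
  rw [mem_product, mem_product, mem_Icc, mem_Icc, mem_Icc] at hb
  obtain ⟨⟨a1, a2⟩, ⟨b1, b2⟩, ⟨c1, c2⟩⟩ := hb
  unfold dsc
  push_cast
  have ha : |x.1| ≤ X := abs_le.2 ⟨a1, a2⟩
  have hb' : |x.2.1| ≤ X := abs_le.2 ⟨b1, b2⟩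
  have hc : |x.2.2| ≤ X := abs_le.2 ⟨c1, c2⟩
  calc |x.2.1 ^ 2 - 4 * x.1 * x.2.2| ≤ |x.2.1 ^ 2| + |4 * x.1 * x.2.2| := abs_sub _ _
    _ = |x.2.1| ^ 2 + 4 * (|x.1| * |x.2.2|) := by
        rw [abs_pow, abs_mul, abs_mul]; norm_num; ring
    _ ≤ (X : ℤ) ^ 2 + 4 * ((X : ℤ) * X) := by
        gcongr
    _ = 5 * (X : ℤ) ^ 2 := by ring

/-- the weight -/
noncomputable def w1 (x : ℤ × ℤ × ℤ) : ℝ :=
  1 / ((Rd x.1.natAbs : ℝ) * Real.sqrt (op (dsc x.1 x.2.1 x.2.2).natAbs))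

lemma w1_nonneg (x : ℤ × ℤ × ℤ) : 0 ≤ w1 x := by unfold w1; positivity

open scoped Classical in
theorem t1_sum (hover : S_OVER) (hmeas : S_MEAS) (hnloc : S_NLOC) (hsumf : S_SUMF)
    (hrad : S_SUMRAD) [MeasurableSpace ZHat] [BorelSpace ZHat] (μ : Measure ZHat)
    [IsFiniteMeasure μ] [μ.IsAddLeftInvariant] (V : Finset Nat.Primes)
    (u v t s : ℤ) (h : u * s - v * t = 1) (ε : ℝ) (hε : 0 < ε) (n : ℕ) :
    ∃ C : ℝ, ∀ (k : ℕ) (j : Nat.Primes → ℕ),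
      ∑ i ∈ (hfin (q := fun x : ℤ × ℤ × ℤ => Prim x.1 x.2.1 x.2.2 ∧ x.1 ≠ 0 ∧
          dsc x.1 x.2.1 x.2.2 ≠ 0) (2 ^ k)).toFinset,
        volume {ξ : ℝ | |ξ| ≤ n ∧ vR i.1.1 i.1.2.1 i.1.2.2 ξ ≤
          w1 i.1 * (2 : ℝ) ^ (-(ε * k)) * ∏ p ∈ V, (p : ℝ) ^ j p} *
          μ {η : ZHat | ∀ p ∈ V, (p : ℝ) ^ (-(n : ℤ)) ≤ lP p (-v) u (η p) ∧
            vP p (TA v s i.1.1 i.1.2.1 i.1.2.2) (TB u v t s i.1.1 i.1.2.1 i.1.2.2)
              (TC u t i.1.1 i.1.2.1 i.1.2.2) (η p) ≤ (p : ℝ) ^ (-(j p : ℤ))} ≤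
        ENNReal.ofReal (C * (2 : ℝ) ^ (-(ε * k / 2))) := by
  obtain ⟨C, hC, hsum⟩ := sumT hsumf hrad V (2 * n + 1) n (ε / 2) (by positivity)
  set c1 : ℝ := 2 ^ V.card * (∏ p ∈ V, (p : ℝ)) ^ (2 * n) with hc1
  have hpos : ∀ p : Nat.Primes, (0 : ℝ) < (p : ℝ) := fun p => by exact_mod_cast p.2.pos
  have hc10 : 0 < c1 := by
    have : 0 < ∏ p ∈ V, (p : ℝ) := Finset.prod_pos fun p _ => hpos p
    positivity
  refine ⟨(μ Set.univ).toReal * (8 * c1 * C), fun k j => ?_⟩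
  set X : ℕ := 2 ^ k with hX
  have hX1 : 1 ≤ X := Nat.one_le_two_pow
  set PJ : ℝ := ∏ p ∈ V, (p : ℝ) ^ j p with hPJ
  have hPJ0 : 0 < PJ := Finset.prod_pos fun p _ => pow_pos (hpos p) _
  set PI : ℝ := ∏ p ∈ V, (p : ℝ) ^ (-(j p : ℤ)) with hPI
  have hPI0 : 0 < PI := Finset.prod_pos fun p _ => zpow_pos (hpos p) _
  have hPIJ : PJ * PI = 1 := by
    rw [hPJ, hPI, ← Finset.prod_mul_distrib]
    refine Finset.prod_eq_one fun p _ => ?_
    rw [← zpow_natCast, ← zpow_add₀ (hpos p).ne']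
    simp
  set δ : ℝ := (2 : ℝ) ^ (-(ε * k)) with hδ
  have hδ0 : 0 < δ := Real.rpow_pos_of_pos (by norm_num) _
  set F := (hfin (q := fun x : ℤ × ℤ × ℤ => Prim x.1 x.2.1 x.2.2 ∧ x.1 ≠ 0 ∧
          dsc x.1 x.2.1 x.2.2 ≠ 0) X).toFinset with hF
  -- first bound: the p-adic factor
  let vol : Idx → ENNReal := fun i => volume {ξ : ℝ | |ξ| ≤ n ∧ vR i.1.1 i.1.2.1 i.1.2.2 ξ ≤
          w1 i.1 * δ * PJ}
  have e1 : ∀ i ∈ F, vol i *
          μ {η : ZHat | ∀ p ∈ V, (p : ℝ) ^ (-(n : ℤ)) ≤ lP p (-v) u (η p) ∧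
            vP p (TA v s i.1.1 i.1.2.1 i.1.2.2) (TB u v t s i.1.1 i.1.2.1 i.1.2.2)
              (TC u t i.1.1 i.1.2.1 i.1.2.2) (η p) ≤ (p : ℝ) ^ (-(j p : ℤ))} ≤
        μ Set.univ * (vol i * ENNReal.ofReal (c1 * PI *
          sqV (Ws V (2 * n + 1) i.1.1 i.1.2.1) (dsc i.1.1 i.1.2.1 i.1.2.2))) := by
    intro i _
    rw [mul_left_comm]
    exact mul_le_mul' le_rfl
      (muBound hmeas μ V n u v t s i.1.1 i.1.2.1 i.1.2.2 h i.2.1 i.2.2.2 j)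
  refine (Finset.sum_le_sum e1).trans ?_
  rw [← Finset.mul_sum]
  -- grouping
  let key : Idx → Finset Nat.Primes × ℤ × ℤ := fun i =>
    (Ws V (2 * n + 1) i.1.1 i.1.2.1, i.1.1, dsc i.1.1 i.1.2.1 i.1.2.2)
  set A := (Finset.Icc (-(X : ℤ)) X).filter (fun a => a ≠ 0) with hA
  set DD := (Finset.Icc (-((5 * X ^ 2 : ℕ) : ℤ)) ((5 * X ^ 2 : ℕ) : ℤ)).filter
    (fun D => D ≠ 0) with hDD
  have hmaps : ∀ i ∈ F, key i ∈ V.powerset ×ˢ A ×ˢ DD := by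
    intro i hi
    rw [hF, Set.Finite.mem_toFinset] at hi
    have hi' : Hx i.1 ≤ X := hi
    have hb := mem_box.2 hi'
    unfold box at hb
    rw [mem_product, mem_product] at hb
    have hd := dsc_abs_le hi'
    rw [mem_product, mem_product]
    refine ⟨Finset.mem_powerset.2 (Finset.filter_subset _ _), ?_, ?_⟩
    · exact Finset.mem_filter.2 ⟨hb.1, i.2.2.1⟩
    · exact Finset.mem_filter.2 ⟨Finset.mem_Icc.2 (abs_le.1 hd), i.2.2.2⟩
  have e2 : ∀ τ ∈ V.powerset ×ˢ A ×ˢ DD,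
      ∑ i ∈ F.filter (fun i => key i = τ), vol i * ENNReal.ofReal (c1 * PI *
          sqV (Ws V (2 * n + 1) i.1.1 i.1.2.1) (dsc i.1.1 i.1.2.1 i.1.2.2)) ≤
      ENNReal.ofReal (8 * c1 * δ * (sqV τ.1 τ.2.2 / ((Rd τ.2.1.natAbs : ℝ) *
        Real.sqrt (op τ.2.2.natAbs) * Real.sqrt |(τ.2.2 : ℝ)|) *
          NN τ.2.1.natAbs (2 * n + 1) n (τ.1.image Subtype.val) (cf τ.2.2.natAbs))) := by
    rintro ⟨W, a, D⟩ hτ
    rw [mem_product, mem_product, hA, hDD, mem_filter, mem_filter] at hτ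
    obtain ⟨hW, ⟨haX, ha⟩, ⟨hDX, hD⟩⟩ := hτ
    simp only at hW haX ha hDX hD ⊢
    set G := F.filter (fun i => key i = (W, a, D)) with hG
    have hGi : ∀ i ∈ G, Ws V (2 * n + 1) i.1.1 i.1.2.1 = W ∧ i.1.1 = a ∧
        dsc i.1.1 i.1.2.1 i.1.2.2 = D := by
      intro i hi
      have h1 := (Finset.mem_filter.1 hi).2
      simp only [key, Prod.mk.injEq] at h1
      exact h1
    let cc : ℤ → ℤ := fun b => (b ^ 2 - D) / (4 * a)
    have h4a : (4 : ℤ) * a ≠ 0 := by omega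
    have hcc : ∀ i ∈ G, i.1.2.2 = cc i.1.2.1 := by
      intro i hi
      obtain ⟨_, h2, h3⟩ := hGi i hi
      have h5 : i.1.2.1 ^ 2 - D = (4 * a) * i.1.2.2 := by
        rw [← h3, ← h2]; unfold dsc; ring
      simp only [cc]
      rw [h5, Int.mul_ediv_cancel_left _ h4a]
    have hinj : Set.InjOn (fun i : Idx => i.1.2.1) (G : Set Idx) := by
      intro i hi i' hi' hii
      simp only at hii
      have h1 := hcc i hi
      have h2 := hcc i' hi'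
      obtain ⟨_, h3, _⟩ := hGi i hi
      obtain ⟨_, h4, _⟩ := hGi i' hi'
      apply Subtype.ext
      apply Prod.ext
      · rw [h3, h4]
      · apply Prod.ext
        · exact hii
        · rw [h1, h2, hii]
    set B := G.image (fun i : Idx => i.1.2.1) with hB
    set K : ℝ := 1 / ((Rd a.natAbs : ℝ) * Real.sqrt (op D.natAbs)) * δ * PJ with hK
    have hK0 : 0 ≤ K := by positivity
    have e3 : ∀ i ∈ G, vol i * ENNReal.ofReal (c1 * PI *
          sqV (Ws V (2 * n + 1) i.1.1 i.1.2.1) (dsc i.1.1 i.1.2.1 i.1.2.2)) =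
        (fun b : ℤ => volume {ξ : ℝ | |ξ| ≤ n ∧ vR a b (cc b) ξ ≤ K} *
          ENNReal.ofReal (c1 * PI * sqV W D)) i.1.2.1 := by
      intro i hi
      obtain ⟨h1, h2, h3⟩ := hGi i hi
      have h4 := hcc i hi
      simp only [vol, w1]
      rw [h1, h3, h2, h4]
    rw [Finset.sum_congr rfl e3, ← Finset.sum_image hinj (f := fun b : ℤ =>
      volume {ξ : ℝ | |ξ| ≤ n ∧ vR a b (cc b) ξ ≤ K} * ENNReal.ofReal (c1 * PI * sqV W D)),
      ← hB, ← Finset.sum_mul]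
    have hNN := NN_nonneg a.natAbs (2 * n + 1) n (W.image Subtype.val) (cf D.natAbs)
    have haabs : |(a : ℝ)| = (a.natAbs : ℝ) := by rw [Nat.cast_natAbs, Int.cast_abs]
    have hapos : (0 : ℝ) < (a.natAbs : ℝ) := by exact_mod_cast Int.natAbs_pos.2 ha
    have e4 := hover a D B cc n K
      (NN a.natAbs (2 * n + 1) n (W.image Subtype.val) (cf D.natAbs)) ha hD (Nat.cast_nonneg n)
      hK0 hNN (by
        intro b hb
        obtain ⟨i, hi, rfl⟩ := Finset.mem_image.1 hb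
        have h4 := hcc i hi
        obtain ⟨_, h2, h3⟩ := hGi i hi
        rw [← h4, ← h2, h3]) (by
        intro y
        have h1 := hnloc a.natAbs (2 * n + 1) D (W.image Subtype.val)
          (B.filter fun b : ℤ => |y - b| ≤ 2 * |(a : ℝ)| * n) y (2 * |(a : ℝ)| * n)
          (Int.natAbs_pos.2 ha) hD (by positivity) (by
            intro p hp
            obtain ⟨q, _, rfl⟩ := Finset.mem_image.1 hp
            exact q.2) (by
            intro b hb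
            rw [Finset.mem_filter] at hb
            obtain ⟨hb1, hb2⟩ := hb
            obtain ⟨i, hi, rfl⟩ := Finset.mem_image.1 hb1
            obtain ⟨h5, h6, h7⟩ := hGi i hi
            refine ⟨?_, hb2, ?_⟩
            · rw [Int.natAbs_dvd, ← h7, ← h6]
              unfold dsc
              exact ⟨4 * i.1.2.2, by ring⟩
            · intro p hp hdiv
              obtain ⟨q, hq, rfl⟩ := Finset.mem_image.1 hp
              rw [← h5] at hq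
              have h8 := (Finset.mem_filter.1 hq).2
              apply h8
              refine ⟨?_, hdiv.2⟩
              have h9 := Int.natCast_dvd.2 hdiv.1
              rw [h6]
              push_cast at h9
              exact h9)
        refine h1.trans (le_of_eq ?_)
        unfold NN
        refine Finset.sum_congr rfl fun a₁ _ => ?_
        rw [haabs]
        field_simp
        ring)
    refine (mul_le_mul' e4 le_rfl).trans ?_
    have hsq := (sqV_pos W D).le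
    rw [← ENNReal.ofReal_mul (by positivity)]
    refine ENNReal.ofReal_le_ofReal (le_of_eq ?_)
    have hRd : (0 : ℝ) < Rd a.natAbs := by exact_mod_cast Rd_pos _
    have hop : (0 : ℝ) < Real.sqrt (op D.natAbs) := Real.sqrt_pos.2 (by exact_mod_cast op_pos _)
    have hDa : (0 : ℝ) < Real.sqrt |(D : ℝ)| :=
      Real.sqrt_pos.2 (abs_pos.2 (by exact_mod_cast hD))
    rw [hK]
    calc 8 * NN a.natAbs (2 * n + 1) n (W.image Subtype.val) (cf D.natAbs) *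
          (1 / ((Rd a.natAbs : ℝ) * Real.sqrt (op D.natAbs)) * δ * PJ) / Real.sqrt |(D : ℝ)| *
          (c1 * PI * sqV W D)
        = 8 * c1 * δ * (sqV W D / ((Rd a.natAbs : ℝ) * Real.sqrt (op D.natAbs) *
            Real.sqrt |(D : ℝ)|) *
            NN a.natAbs (2 * n + 1) n (W.image Subtype.val) (cf D.natAbs)) * (PJ * PI) := by
          field_simp
      _ = _ := by rw [hPIJ, mul_one]
  rw [← Finset.sum_fiberwise_of_maps_to hmaps]
  have e5 := Finset.sum_le_sum e2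
  refine (mul_le_mul' le_rfl e5).trans ?_
  have hterm : ∀ τ : Finset Nat.Primes × ℤ × ℤ, 0 ≤ 8 * c1 * δ * (sqV τ.1 τ.2.2 /
      ((Rd τ.2.1.natAbs : ℝ) * Real.sqrt (op τ.2.2.natAbs) * Real.sqrt |(τ.2.2 : ℝ)|) *
          NN τ.2.1.natAbs (2 * n + 1) n (τ.1.image Subtype.val) (cf τ.2.2.natAbs)) := by
    intro τ
    have h1 := (sqV_pos τ.1 τ.2.2).le
    have h2 := NN_nonneg τ.2.1.natAbs (2 * n + 1) n (τ.1.image Subtype.val) (cf τ.2.2.natAbs)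
    positivity
  rw [← ENNReal.ofReal_sum_of_nonneg (fun τ _ => hterm τ), ← Finset.mul_sum, Finset.sum_product]
  simp only [Finset.sum_product]
  have e6 := hsum X hX1
  rw [← ENNReal.ofReal_toReal (measure_ne_top μ Set.univ), ← ENNReal.ofReal_mul
    ENNReal.toReal_nonneg, ENNReal.toReal_ofReal ENNReal.toReal_nonneg]
  refine ENNReal.ofReal_le_ofReal ?_
  rw [mul_assoc (μ Set.univ).toReal (8 * c1 * C)]
  refine mul_le_mul_of_nonneg_left ?_ ENNReal.toReal_nonneg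
  have e7 : (X : ℝ) ^ (ε / 2) = (2 : ℝ) ^ (ε * k / 2) := by
    rw [hX]
    push_cast
    rw [← Real.rpow_natCast, ← Real.rpow_mul (by norm_num)]
    congr 1; ring
  have e8 : δ * (2 : ℝ) ^ (ε * k / 2) = (2 : ℝ) ^ (-(ε * k / 2)) := by
    rw [hδ, ← Real.rpow_add (by norm_num)]
    congr 1; ring
  calc 8 * c1 * δ * _ ≤ 8 * c1 * δ * (C * (X : ℝ) ^ (ε / 2)) :=
        mul_le_mul_of_nonneg_left e6 (by positivity)
    _ = 8 * c1 * C * (δ * (2 : ℝ) ^ (ε * k / 2)) := by rw [e7]; ring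
    _ = _ := by rw [e8]

end Q273.QP
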