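import Mathlib

/-!
# Statements of the lemmas of the project QP (quadratic points near almost every adele)

`P = a X² + b X + c` is a quadratic polynomial with integral coefficients, `dsc` its discriminant.
`u = (ξ, η)` is an integral adelic point: a real number and a `p`-adic integer for every prime `p`.
-/

set_option autoImplicit false

open MeasureTheory

namespace Q273.QP

/-- the product of the rings of `p`-adic integers over all primes `p`, with the product topology -/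
abbrev ZHat : Type := (p : Nat.Primes) → @PadicInt p.1 ⟨p.2⟩

/-- the discriminant of `a X² + b X + c` -/
def dsc (a b c : ℤ) : ℤ := b ^ 2 - 4 * a * c

/-- `a`, `b`, `c` are coprime -/
def Prim (a b c : ℤ) : Prop := ∃ x y z : ℤ, x * a + y * b + z * c = 1

/-- the absolute value of `a ξ² + b ξ + c` -/
noncomputable def vR (a b c : ℤ) (ξ : ℝ) : ℝ := |(a : ℝ) * ξ ^ 2 + b * ξ + c|

/-- the `p`-adic absolute value of `a η² + b η + c` -/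
noncomputable def vP (p : Nat.Primes) (a b c : ℤ) (η : @PadicInt p.1 ⟨p.2⟩) : ℝ :=
  haveI : Fact p.1.Prime := ⟨p.2⟩
  ‖(a : ℤ_[p.1]) * η ^ 2 + b * η + c‖

/-- the `p`-adic absolute value of `c η + d` -/
noncomputable def lP (p : Nat.Primes) (c d : ℤ) (η : @PadicInt p.1 ⟨p.2⟩) : ℝ :=
  haveI : Fact p.1.Prime := ⟨p.2⟩
  ‖(c : ℤ_[p.1]) * η + d‖

/-- the distance of two `p`-adic integers -/
noncomputable def dP (p : Nat.Primes) (η z : @PadicInt p.1 ⟨p.2⟩) : ℝ :=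
  haveI : Fact p.1.Prime := ⟨p.2⟩
  ‖η - z‖

/-- the radical -/
def Rd (m : ℕ) : ℕ := ∏ p ∈ m.primeFactors, p

/-- the squarefree part of `n`: `n = op n * cf n ^ 2` -/
def op (n : ℕ) : ℕ := ∏ p ∈ n.primeFactors.filter fun p => Odd (n.factorization p), p

/-- the square root of the largest square dividing `n` -/
def cf (n : ℕ) : ℕ := ∏ p ∈ n.primeFactors, p ^ (n.factorization p / 2)

/-- the square root of the part of the nonzero integer `n` composed of the primes in `V` -/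
noncomputable def sqV (V : Finset Nat.Primes) (n : ℤ) : ℝ :=
  ∏ p ∈ V, Real.sqrt ((p : ℝ) ^ padicValInt p n)

/-- job REAL: the measure of the real `y` with `y²` close to `D` -/
def S_REAL : Prop :=
  ∀ D T : ℝ, D ≠ 0 → 0 ≤ T →
    volume {y : ℝ | |y ^ 2 - D| ≤ T} ≤ ENNReal.ofReal (4 * T / Real.sqrt |D|)

/-- job ONE: one polynomial, real place -/
def S_ONE : Prop :=
  ∀ (a b c : ℤ) (K : ℝ), a ≠ 0 → dsc a b c ≠ 0 → 0 ≤ K →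
    volume {ξ : ℝ | vR a b c ξ ≤ K} ≤ ENNReal.ofReal (8 * K / Real.sqrt |(dsc a b c : ℝ)|)

open scoped Classical in
/-- job OVER: many polynomials with the same leading coefficient and the same discriminant -/
def S_OVER : Prop :=
  ∀ (a D : ℤ) (B : Finset ℤ) (c : ℤ → ℤ) (R K N : ℝ), a ≠ 0 → D ≠ 0 → 0 ≤ R → 0 ≤ K → 0 ≤ N →
    (∀ b ∈ B, dsc a b (c b) = D) →
    (∀ y : ℝ, (((B.filter fun b : ℤ => |y - b| ≤ 2 * |(a : ℝ)| * R).card : ℕ) : ℝ) ≤ N) →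
    ∑ b ∈ B, volume {ξ : ℝ | |ξ| ≤ R ∧ vR a b (c b) ξ ≤ K} ≤
      ENNReal.ofReal (8 * N * K / Real.sqrt |(D : ℝ)|)

/-- job BALLS: the `p`-adic zeros lie in two small balls -/
def S_BALLS : Prop :=
  ∀ (p : Nat.Primes) (a b c : ℤ), Prim a b c → dsc a b c ≠ 0 → ∀ j : ℕ,
    ∃ (z₁ z₂ : @PadicInt p.1 ⟨p.2⟩) (k : ℕ), 2 * j ≤ 2 * k + padicValInt p (dsc a b c) ∧
      ∀ η : @PadicInt p.1 ⟨p.2⟩, vP p a b c η ≤ (p : ℝ) ^ (-(j : ℤ)) →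
        dP p η z₁ ≤ (p : ℝ) ^ (-(k : ℤ)) ∨ dP p η z₂ ≤ (p : ℝ) ^ (-(k : ℤ))

/-- job HAAR: the measure of a finite intersection of balls -/
def S_HAAR : Prop :=
  ∀ [MeasurableSpace ZHat] [BorelSpace ZHat] (μ : Measure ZHat) [IsFiniteMeasure μ]
    [μ.IsAddLeftInvariant] (V : Finset Nat.Primes) (z : ZHat) (k : Nat.Primes → ℕ),
    μ {η : ZHat | ∀ p ∈ V, dP p (η p) (z p) ≤ (p : ℝ) ^ (-(k p : ℤ))} ≤
      μ Set.univ * ENNReal.ofReal (∏ p ∈ V, (p : ℝ) ^ (-(k p : ℤ)))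

/-- job MEAS: the measure of the small values of `P` at the primes of `V` -/
def S_MEAS : Prop :=
  ∀ [MeasurableSpace ZHat] [BorelSpace ZHat] (μ : Measure ZHat) [IsFiniteMeasure μ]
    [μ.IsAddLeftInvariant] (V : Finset Nat.Primes) (a b c : ℤ), Prim a b c → dsc a b c ≠ 0 →
    ∀ j : Nat.Primes → ℕ,
    μ {η : ZHat | ∀ p ∈ V, vP p a b c (η p) ≤ (p : ℝ) ^ (-(j p : ℤ))} ≤
      μ Set.univ * ENNReal.ofReal (2 ^ V.card * (∏ p ∈ V, (p : ℝ) ^ (-(j p : ℤ))) *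
        sqV V (dsc a b c))

/-- job LIN: the measure of the small values of a linear polynomial -/
def S_LIN : Prop :=
  ∀ [MeasurableSpace ZHat] [BorelSpace ZHat] (μ : Measure ZHat) [IsFiniteMeasure μ]
    [μ.IsAddLeftInvariant] (V : Finset Nat.Primes) (c d : ℤ), IsCoprime c d →
    ∀ j : Nat.Primes → ℕ,
    μ {η : ZHat | ∀ p ∈ V, lP p c d (η p) ≤ (p : ℝ) ^ (-(j p : ℤ))} ≤
      μ Set.univ * ENNReal.ofReal (∏ p ∈ V, (p : ℝ) ^ (-(j p : ℤ)))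

open scoped Classical in
/-- job NLOC: square roots of `n` modulo `a` in an interval -/
def S_NLOC : Prop :=
  ∀ (a L : ℕ) (n : ℤ) (W : Finset ℕ) (B : Finset ℤ) (y T : ℝ), 1 ≤ a → n ≠ 0 → 0 ≤ T →
    (∀ p ∈ W, p.Prime) →
    (∀ b ∈ B, (a : ℤ) ∣ b ^ 2 - n ∧ |y - b| ≤ T ∧ ∀ p ∈ W, ¬ (p ^ L ∣ a ∧ ((p : ℤ) ^ L) ∣ b)) →
    (B.card : ℝ) ≤ ∑ a₁ ∈ a.divisors.filter (fun a₁ => Nat.gcd a₁ (a / a₁) ∣ 2 * cf n.natAbs ∧
        ∀ p ∈ W, ¬ p ^ (L + 1) ∣ Nat.gcd a₁ (a / a₁)),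
      (2 * T * Nat.gcd a₁ (a / a₁) / a + 1)

open scoped Classical in
/-- job SUMF: a sum over conductors -/
def S_SUMF : Prop :=
  ∀ (W : Finset ℕ) (L : ℕ) (ε : ℝ), 0 < ε → (∀ p ∈ W, p.Prime) → ∃ C : ℝ, 0 < C ∧
    ∀ g Y : ℕ, 1 ≤ g → 1 ≤ Y → (∀ p ∈ W, ¬ p ^ L ∣ g) →
      ∑ f ∈ (Finset.Icc 1 Y).filter (fun f => g ∣ 2 * f),
        ((∏ p ∈ W, p ^ f.factorization p : ℕ) : ℝ) / f ≤ C * (Y : ℝ) ^ ε / g

/-- job SUMRAD -/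
def S_SUMRAD : Prop :=
  ∀ ε : ℝ, 0 < ε → ∃ C : ℝ, 0 < C ∧ ∀ X : ℕ, 1 ≤ X →
    ∑ a ∈ Finset.Icc 1 X, (a.divisors.card : ℝ) / Rd a ≤ C * (X : ℝ) ^ ε

open scoped Classical in
/-- job SUMB: a sum over the middle coefficients -/
def S_SUMB : Prop :=
  ∀ (V : Finset Nat.Primes) (ε : ℝ), 0 < ε → ∃ C : ℝ, 0 < C ∧ ∀ (X : ℕ) (m : ℤ), 1 ≤ X →
    |m| ≤ 4 * (X : ℤ) ^ 2 →
    ∑ b ∈ (Finset.Icc (-(X : ℤ)) X).filter (fun b => b ^ 2 ≠ m),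
      sqV V (b ^ 2 - m) / Real.sqrt |((b ^ 2 - m : ℤ) : ℝ)| ≤ C * (X : ℝ) ^ ε

/-- job BC: the Borel-Cantelli argument. `H i` is the size of the object `i`, `W i` its weight,
`g i ξ` and `h i p η` are its values at the places -/
def S_BC : Prop :=
  ∀ [MeasurableSpace ZHat] [BorelSpace ZHat] (μ : Measure ZHat) [IsFiniteMeasure μ]
    [μ.IsAddLeftInvariant] (ι : Type) (V : Finset Nat.Primes) (H : ι → ℕ)
    (hfin : ∀ X : ℕ, {i | H i ≤ X}.Finite) (W : ι → ℝ) (g : ι → ℝ → ℝ)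
    (h : ι → (p : Nat.Primes) → @PadicInt p.1 ⟨p.2⟩ → ℝ)
    (E : ℕ → (p : Nat.Primes) → Set (@PadicInt p.1 ⟨p.2⟩)) (ε : ℝ), 0 < ε →
    (∀ i, 0 ≤ W i) → (∀ i ξ, 0 ≤ g i ξ) →
    (∀ i (p : Nat.Primes) η, ∃ j : ℕ, h i p η = (p : ℝ) ^ (-(j : ℤ)) ∨ h i p η = 0) →
    (∃ m : ℕ, ∀ i, ∀ p ∈ V, ∀ j : ℕ, μ {η : ZHat | h i p (η p) ≤ (p : ℝ) ^ (-(j : ℤ))} ≤
      ENNReal.ofReal (((H i : ℝ) + m) ^ m * (p : ℝ) ^ (-(j : ℤ)))) →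
    (∃ m : ℕ, ∀ X : ℕ, (hfin X).toFinset.card ≤ (X + m) ^ m) →
    (∀ n : ℕ, ∃ C : ℝ, ∀ (k : ℕ) (j : Nat.Primes → ℕ),
      ∑ i ∈ (hfin (2 ^ k)).toFinset,
        volume {ξ : ℝ | |ξ| ≤ n ∧ g i ξ ≤ W i * (2 : ℝ) ^ (-(ε * k)) * ∏ p ∈ V, (p : ℝ) ^ j p} *
          μ {η : ZHat | ∀ p ∈ V, η p ∈ E n p ∧ h i p (η p) ≤ (p : ℝ) ^ (-(j p : ℤ))} ≤
        ENNReal.ofReal (C * (2 : ℝ) ^ (-(ε * k / 2)))) →
    ∀ᵐ u : ℝ × ZHat ∂(volume.prod μ), (∃ n : ℕ, |u.1| ≤ n ∧ ∀ p ∈ V, u.2 p ∈ E n p) →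
      {i | 1 ≤ H i ∧ g i u.1 * ∏ p ∈ V, h i p (u.2 p) ≤ W i * (2 * (H i : ℝ)) ^ (-ε)}.Finite

/-- job PIG: polynomials with leading coefficient a power of two and small value -/
def S_PIG : Prop :=
  ∀ ξ : ℝ, Irrational ξ → ∃ C : ℝ, 0 < C ∧ ∀ N : ℕ, ∃ (k : ℕ) (b c : ℤ), N ≤ k ∧
    |(b : ℝ)| ≤ C * 2 ^ k ∧ |(c : ℝ)| ≤ C * 2 ^ k ∧ vR (2 ^ k) b c ξ ≤ C / 2 ^ k

end Q273.QP
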