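import Pool.Agent.Q273.QP.Stm
import Pool.Agent.H813R3.Voj.Rad

/-!
# The sums over the polynomials
-/

set_option autoImplicit false

namespace Q273.QP

open Finset

lemma Rd_pos (n : ℕ) : 0 < Rd n := Finset.prod_pos fun p hp => (Nat.prime_of_mem_primeFactors hp).pos

lemma op_pos (n : ℕ) : 0 < op n :=
  Finset.prod_pos fun _ hp => (Nat.prime_of_mem_primeFactors (Finset.mem_filter.mp hp).1).pos

lemma cf_pos (n : ℕ) : 0 < cf n :=
  Finset.prod_pos fun _ hp => pow_pos (Nat.prime_of_mem_primeFactors hp).pos _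

lemma op_squarefree (n : ℕ) : Squarefree (op n) := by
  unfold op
  refine Finset.squarefree_prod_of_pairwise_isCoprime (fun p hp q hq hpq => ?_) fun p hp => ?_
  · simp only [← Nat.coprime_iff_isRelPrime, Function.onFun]
    rw [Finset.mem_coe, Finset.mem_filter] at hp hq
    exact (Nat.coprime_primes (Nat.prime_of_mem_primeFactors hp.1)
      (Nat.prime_of_mem_primeFactors hq.1)).mpr hpq
  · exact (Nat.prime_of_mem_primeFactors (Finset.mem_filter.mp hp).1).squarefree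

lemma op_mul_cf (n : ℕ) (hn : n ≠ 0) : n = op n * cf n ^ 2 := by
  have h1 : op n = ∏ p ∈ n.primeFactors, p ^ (n.factorization p % 2) := by
    unfold op
    rw [Finset.prod_filter]
    refine Finset.prod_congr rfl fun p _ => ?_
    split_ifs with h
    · rw [Nat.odd_iff.mp h, pow_one]
    · rw [Nat.not_odd_iff_even, Nat.even_iff] at h; rw [h, pow_zero]
  rw [h1, cf, ← Finset.prod_pow, ← Finset.prod_mul_distrib]
  conv_lhs => rw [← Nat.prod_factorization_pow_eq_self hn]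
  rw [Finsupp.prod, Nat.support_factorization]
  refine Finset.prod_congr rfl fun p _ => ?_
  rw [← pow_mul, ← pow_add]
  congr 1
  omega

lemma sqV_pos (V : Finset Nat.Primes) (n : ℤ) : 0 < sqV V n := by
  unfold sqV
  refine Finset.prod_pos fun p _ => Real.sqrt_pos.2 (pow_pos ?_ _)
  exact_mod_cast p.2.pos

/-- the local weight of the conductor -/
noncomputable def wt (V : Finset Nat.Primes) (f : ℕ) : ℝ := ∏ p ∈ V, (p : ℝ) ^ f.factorization p

lemma wt_pos (V : Finset Nat.Primes) (f : ℕ) : 0 < wt V f := by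
  unfold wt
  refine Finset.prod_pos fun p _ => pow_pos ?_ _
  exact_mod_cast p.2.pos

lemma sqV_le {V W : Finset Nat.Primes} (h : W ⊆ V) (D : ℤ) (hD : D ≠ 0) :
    sqV W D ≤ (∏ p ∈ V, (p : ℝ)) * wt W (cf D.natAbs) := by
  have hn : D.natAbs ≠ 0 := Int.natAbs_ne_zero.2 hD
  have h1 : sqV W D ≤ ∏ p ∈ W, ((p : ℝ) * (p : ℝ) ^ (cf D.natAbs).factorization p) := by
    unfold sqV
    refine Finset.prod_le_prod (fun p _ => Real.sqrt_nonneg _) fun p _ => ?_
    have hp1 : (1 : ℝ) ≤ (p : ℝ) := by exact_mod_cast p.2.one_le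
    have hp0 : (0 : ℝ) < (p : ℝ) := by linarith
    have h2 : padicValInt p D ≤ 2 * (1 + (cf D.natAbs).factorization p) := by
      have h3 : padicValInt p D = D.natAbs.factorization p := by
        unfold padicValInt
        rw [Nat.factorization_def _ p.2]
      rw [h3]
      conv_lhs => rw [op_mul_cf _ hn]
      rw [Nat.factorization_mul (op_pos _).ne' (pow_pos (cf_pos _) 2).ne', Nat.factorization_pow]
      simp only [Finsupp.coe_add, Finsupp.coe_smul, Pi.add_apply, Pi.smul_apply, smul_eq_mul]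
      have h4 : (op D.natAbs).factorization p ≤ 1 := by
        exact (op_squarefree _).natFactorization_le_one p
      omega
    calc Real.sqrt ((p : ℝ) ^ padicValInt p D)
        ≤ Real.sqrt (((p : ℝ) * (p : ℝ) ^ (cf D.natAbs).factorization p) ^ 2) := by
          refine Real.sqrt_le_sqrt ?_
          rw [← pow_succ', ← pow_mul]
          exact pow_le_pow_right₀ hp1 (by omega)
      _ = _ := Real.sqrt_sq (by positivity)
  refine h1.trans ?_
  rw [Finset.prod_mul_distrib]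
  refine mul_le_mul_of_nonneg_right ?_ (wt_pos _ _).le
  exact Finset.prod_le_prod_of_subset_of_one_le h (fun p _ => by positivity)
    (fun p _ _ => by exact_mod_cast p.2.one_le)

open scoped Classical in
/-- the bound for the number of middle coefficients -/
noncomputable def NN (a L n : ℕ) (W : Finset ℕ) (f : ℕ) : ℝ :=
  ∑ a₁ ∈ a.divisors.filter (fun a₁ => Nat.gcd a₁ (a / a₁) ∣ 2 * f ∧
    ∀ p ∈ W, ¬ p ^ (L + 1) ∣ Nat.gcd a₁ (a / a₁)), (4 * (n : ℝ) * Nat.gcd a₁ (a / a₁) + 1)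

lemma NN_nonneg (a L n : ℕ) (W : Finset ℕ) (f : ℕ) : 0 ≤ NN a L n W f := by
  unfold NN
  exact Finset.sum_nonneg fun _ _ => by positivity

open scoped Classical in
lemma sum_f (hsumf : S_SUMF) (W : Finset Nat.Primes) (L n : ℕ) (ε : ℝ) (hε : 0 < ε) :
    ∃ C : ℝ, 0 < C ∧ ∀ a Y : ℕ, 1 ≤ a → 1 ≤ Y →
      ∑ f ∈ Finset.Icc 1 Y, wt W f / f * NN a L n (W.image Subtype.val) f ≤
        C * (Y : ℝ) ^ ε * a.divisors.card := by
  obtain ⟨C, hC, h⟩ := hsumf (W.image Subtype.val) (L + 1) ε hε (by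
    intro p hp
    obtain ⟨q, _, rfl⟩ := Finset.mem_image.1 hp
    exact q.2)
  have hwt : ∀ f : ℕ, ((∏ p ∈ W.image Subtype.val, p ^ f.factorization p : ℕ) : ℝ) = wt W f := by
    intro f
    rw [Finset.prod_image (fun x _ y _ hxy => Subtype.ext hxy)]
    unfold wt
    push_cast
    rfl
  refine ⟨(4 * n + 1) * C, by positivity, fun a Y ha hY => ?_⟩
  have hYe : (0 : ℝ) < (Y : ℝ) ^ ε := Real.rpow_pos_of_pos (by exact_mod_cast hY) _
  calc ∑ f ∈ Finset.Icc 1 Y, wt W f / f * NN a L n (W.image Subtype.val) f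
      = ∑ f ∈ Finset.Icc 1 Y, ∑ a₁ ∈ a.divisors,
          (if (∀ p ∈ W.image Subtype.val, ¬ p ^ (L + 1) ∣ Nat.gcd a₁ (a / a₁)) then
            (if Nat.gcd a₁ (a / a₁) ∣ 2 * f then
              wt W f / f * (4 * (n : ℝ) * Nat.gcd a₁ (a / a₁) + 1) else 0) else 0) := by
        refine Finset.sum_congr rfl fun f _ => ?_
        unfold NN
        rw [Finset.mul_sum, Finset.sum_filter]
        refine Finset.sum_congr rfl fun a₁ _ => ?_
        by_cases h1 : Nat.gcd a₁ (a / a₁) ∣ 2 * f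
        · by_cases h2 : ∀ p ∈ W.image Subtype.val, ¬ p ^ (L + 1) ∣ Nat.gcd a₁ (a / a₁)
          · rw [if_pos ⟨h1, h2⟩, if_pos h2, if_pos h1]
          · rw [if_neg (fun h => h2 h.2), if_neg h2]
        · rw [if_neg (fun h => h1 h.1), if_neg h1]
          split_ifs <;> rfl
    _ = ∑ a₁ ∈ a.divisors, ∑ f ∈ Finset.Icc 1 Y,
          (if (∀ p ∈ W.image Subtype.val, ¬ p ^ (L + 1) ∣ Nat.gcd a₁ (a / a₁)) then
            (if Nat.gcd a₁ (a / a₁) ∣ 2 * f then
              wt W f / f * (4 * (n : ℝ) * Nat.gcd a₁ (a / a₁) + 1) else 0) else 0) :=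
        Finset.sum_comm
    _ ≤ ∑ a₁ ∈ a.divisors, (4 * n + 1) * C * (Y : ℝ) ^ ε := by
        refine Finset.sum_le_sum fun a₁ ha₁ => ?_
        have hg : 1 ≤ Nat.gcd a₁ (a / a₁) := by
          have h1 : a₁ ≠ 0 := by
            have := Nat.pos_of_mem_divisors ha₁
            omega
          exact Nat.gcd_pos_of_pos_left _ (by omega)
        have hgr : (1 : ℝ) ≤ (Nat.gcd a₁ (a / a₁) : ℕ) := by exact_mod_cast hg
        by_cases h2 : ∀ p ∈ W.image Subtype.val, ¬ p ^ (L + 1) ∣ Nat.gcd a₁ (a / a₁)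
        · simp only [if_pos h2]
          have h3 := h (Nat.gcd a₁ (a / a₁)) Y hg hY h2
          calc ∑ f ∈ Finset.Icc 1 Y, (if Nat.gcd a₁ (a / a₁) ∣ 2 * f then
                wt W f / f * (4 * (n : ℝ) * Nat.gcd a₁ (a / a₁) + 1) else 0)
              = (∑ f ∈ (Finset.Icc 1 Y).filter (fun f => Nat.gcd a₁ (a / a₁) ∣ 2 * f),
                  ((∏ p ∈ W.image Subtype.val, p ^ f.factorization p : ℕ) : ℝ) / f) *
                  (4 * (n : ℝ) * Nat.gcd a₁ (a / a₁) + 1) := by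
                rw [Finset.sum_mul, Finset.sum_filter]
                refine Finset.sum_congr rfl fun f _ => ?_
                rw [hwt]
            _ ≤ (C * (Y : ℝ) ^ ε / (Nat.gcd a₁ (a / a₁) : ℕ)) *
                  (4 * (n : ℝ) * Nat.gcd a₁ (a / a₁) + 1) :=
                mul_le_mul_of_nonneg_right h3 (by positivity)
            _ ≤ _ := by
                rw [div_mul_eq_mul_div, div_le_iff₀ (by linarith)]
                have h4 : (0 : ℝ) ≤ C * (Y : ℝ) ^ ε := by positivity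
                nlinarith
        · simp only [if_neg h2, Finset.sum_const_zero]
          positivity
    _ = _ := by
        rw [Finset.sum_const, nsmul_eq_mul]
        ring

lemma log_le_rpow (ε : ℝ) (hε : 0 < ε) : ∃ C : ℝ, 0 < C ∧ ∀ Y : ℕ, 1 ≤ Y →
    1 + Real.log Y ≤ C * (Y : ℝ) ^ ε := by
  refine ⟨1 + 1 / ε, by positivity, fun Y hY => ?_⟩
  have hY1 : (1 : ℝ) ≤ Y := by exact_mod_cast hY
  have h1 := Real.log_le_rpow_div (by linarith : (0 : ℝ) ≤ Y) hε
  have h2 : 1 ≤ (Y : ℝ) ^ ε := Real.one_le_rpow hY1 hε.le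
  have h3 : (Y : ℝ) ^ ε / ε = 1 / ε * (Y : ℝ) ^ ε := by ring
  nlinarith

lemma harm_le (Y : ℕ) : ∑ d ∈ Finset.Icc 1 Y, (1 : ℝ) / d ≤ 1 + Real.log Y := by
  have := harmonic_le_one_add_log Y
  rw [harmonic_eq_sum_Icc] at this
  push_cast at this
  simpa [one_div] using this

/-- a sum over the nonzero integers in terms of a sum over the natural numbers -/
lemma sum_sym (M : ℕ) (g : ℕ → ℝ) (hg : ∀ n, 0 ≤ g n) :
    ∑ a ∈ (Finset.Icc (-(M : ℤ)) M).filter (fun a => a ≠ 0), g a.natAbs ≤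
      2 * ∑ n ∈ Finset.Icc 1 M, g n := by
  classical
  have hmaps : ∀ a ∈ (Finset.Icc (-(M : ℤ)) M).filter (fun a => a ≠ 0),
      a.natAbs ∈ Finset.Icc 1 M := by
    intro a ha
    rw [mem_filter, mem_Icc] at ha
    rw [mem_Icc]
    omega
  rw [← sum_fiberwise_of_maps_to hmaps, mul_sum]
  refine sum_le_sum (fun n _ => ?_)
  have h1 : ∑ a ∈ ((Finset.Icc (-(M : ℤ)) M).filter (fun a => a ≠ 0)).filter
      (fun a => a.natAbs = n), g a.natAbs =
      (((Finset.Icc (-(M : ℤ)) M).filter (fun a => a ≠ 0)).filter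
        (fun a => a.natAbs = n)).card * g n := by
    rw [sum_congr rfl (g := fun _ => g n) (fun a ha => by rw [(mem_filter.1 ha).2]), sum_const,
      nsmul_eq_mul]
  rw [h1]
  refine mul_le_mul_of_nonneg_right ?_ (hg n)
  have h2 : (((Finset.Icc (-(M : ℤ)) M).filter (fun a => a ≠ 0)).filter
      (fun a => a.natAbs = n)).card ≤ ({(n : ℤ), -(n : ℤ)} : Finset ℤ).card := by
    refine card_le_card ?_
    intro a ha
    rw [mem_filter] at ha
    rw [mem_insert, mem_singleton]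
    omega
  have h3 : ({(n : ℤ), -(n : ℤ)} : Finset ℤ).card ≤ 2 := Finset.card_le_two
  exact_mod_cast h2.trans h3

/-- a sum over the numbers in terms of squarefree parts and conductors -/
lemma sum_opcf (Y : ℕ) (φ : ℕ → ℕ → ℝ) (hφ : ∀ d f, 0 ≤ φ d f) :
    ∑ n ∈ Finset.Icc 1 Y, φ (op n) (cf n) ≤
      ∑ d ∈ Finset.Icc 1 Y, ∑ f ∈ Finset.Icc 1 Y, φ d f := by
  classical
  rw [← Finset.sum_product']
  have hmaps : ∀ n ∈ Finset.Icc 1 Y, (op n, cf n) ∈ Finset.Icc 1 Y ×ˢ Finset.Icc 1 Y := by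
    intro n hn
    rw [mem_Icc] at hn
    rw [mem_product, mem_Icc, mem_Icc]
    have h1 := op_mul_cf n (by omega)
    have h2 := op_pos n
    have h3 := cf_pos n
    have h4 : op n ≤ op n * cf n ^ 2 := Nat.le_mul_of_pos_right _ (by positivity)
    have h5 : cf n ≤ op n * cf n ^ 2 := by
      calc cf n ≤ cf n ^ 2 := Nat.le_self_pow (by norm_num) _
        _ ≤ _ := Nat.le_mul_of_pos_left _ h2
    refine ⟨⟨h2, ?_⟩, ⟨h3, ?_⟩⟩ <;> simp only <;> omega
  have hinj : Set.InjOn (fun n => (op n, cf n)) (Finset.Icc 1 Y : Set ℕ) := by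
    intro n hn m hm h
    rw [mem_coe, mem_Icc] at hn hm
    simp only [Prod.mk.injEq] at h
    rw [op_mul_cf n (by omega), op_mul_cf m (by omega), h.1, h.2]
  calc ∑ n ∈ Finset.Icc 1 Y, φ (op n) (cf n)
      = ∑ x ∈ (Finset.Icc 1 Y).image (fun n => (op n, cf n)), φ x.1 x.2 := by
        rw [Finset.sum_image hinj]
    _ ≤ _ := by
        refine Finset.sum_le_sum_of_subset_of_nonneg ?_ fun x _ _ => hφ _ _
        intro x hx
        obtain ⟨n, hn, rfl⟩ := Finset.mem_image.1 hx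
        exact hmaps n hn

/-- the total sum for the polynomials with a given leading coefficient and discriminant -/
theorem sumT (hsumf : S_SUMF) (hrad : S_SUMRAD) (V : Finset Nat.Primes) (L n : ℕ) (ε : ℝ)
    (hε : 0 < ε) : ∃ C : ℝ, 0 < C ∧ ∀ X : ℕ, 1 ≤ X →
      ∑ W ∈ V.powerset, ∑ a ∈ (Finset.Icc (-(X : ℤ)) X).filter (fun a => a ≠ 0),
        ∑ D ∈ (Finset.Icc (-((5 * X ^ 2 : ℕ) : ℤ)) ((5 * X ^ 2 : ℕ) : ℤ)).filter (fun D => D ≠ 0),
          sqV W D / ((Rd a.natAbs : ℝ) * Real.sqrt (op D.natAbs) * Real.sqrt |(D : ℝ)|) *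
            NN a.natAbs L n (W.image Subtype.val) (cf D.natAbs) ≤ C * (X : ℝ) ^ ε := by
  classical
  have hε8 : 0 < ε / 8 := by positivity
  choose C1 hC1 h1 using fun W : Finset Nat.Primes => sum_f hsumf W L n (ε / 8) hε8
  obtain ⟨C2, hC2, h2⟩ := hrad (ε / 4) (by positivity)
  obtain ⟨C3, hC3, h3⟩ := log_le_rpow (ε / 8) hε8
  set M : ℝ := ∏ p ∈ V, (p : ℝ) with hM
  have hM0 : 0 < M := Finset.prod_pos fun p _ => by exact_mod_cast p.2.pos
  refine ⟨∑ W ∈ V.powerset, (2 * C2 * (2 * M * C3 * C1 W * (5 : ℝ) ^ (ε / 4))), ?_, fun X hX => ?_⟩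
  · refine Finset.sum_pos (fun W _ => ?_) ⟨∅, Finset.empty_mem_powerset V⟩
    have := hC1 W
    positivity
  have hX1 : (1 : ℝ) ≤ X := by exact_mod_cast hX
  have hX0 : (0 : ℝ) < X := by linarith
  rw [Finset.sum_mul]
  refine Finset.sum_le_sum fun W hW => ?_
  rw [Finset.mem_powerset] at hW
  set Y : ℕ := 5 * X ^ 2 with hY
  have hY1 : 1 ≤ Y := by
    have : 1 ≤ X ^ 2 := Nat.one_le_pow _ _ hX
    omega
  have hYr : (0 : ℝ) < Y := by exact_mod_cast hY1
  have hD : ∀ a : ℕ, 1 ≤ a →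
      ∑ D ∈ (Finset.Icc (-(Y : ℤ)) (Y : ℤ)).filter (fun D => D ≠ 0),
          sqV W D / ((Rd a : ℝ) * Real.sqrt (op D.natAbs) * Real.sqrt |(D : ℝ)|) *
            NN a L n (W.image Subtype.val) (cf D.natAbs) ≤
        (2 * M * C3 * C1 W * (5 : ℝ) ^ (ε / 4)) * (X : ℝ) ^ (ε / 2) *
          ((a.divisors.card : ℝ) / Rd a) := by
    intro a ha
    have hRd : (0 : ℝ) < Rd a := by exact_mod_cast Rd_pos a
    have e1 : ∀ D ∈ (Finset.Icc (-(Y : ℤ)) (Y : ℤ)).filter (fun D => D ≠ 0),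
        sqV W D / ((Rd a : ℝ) * Real.sqrt (op D.natAbs) * Real.sqrt |(D : ℝ)|) *
            NN a L n (W.image Subtype.val) (cf D.natAbs) ≤
          (fun m : ℕ => M / Rd a * (1 / (op m : ℝ) * (wt W (cf m) / (cf m : ℝ) *
            NN a L n (W.image Subtype.val) (cf m)))) D.natAbs := by
      intro D hD
      rw [mem_filter] at hD
      have hn : D.natAbs ≠ 0 := Int.natAbs_ne_zero.2 hD.2
      have hop : (0 : ℝ) < op D.natAbs := by exact_mod_cast op_pos _
      have hcf : (0 : ℝ) < cf D.natAbs := by exact_mod_cast cf_pos _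
      have h4 : Real.sqrt (op D.natAbs) * Real.sqrt |(D : ℝ)| = op D.natAbs * cf D.natAbs := by
        rw [← Real.sqrt_mul hop.le]
        have h5 : |(D : ℝ)| = (D.natAbs : ℝ) := by
          rw [Nat.cast_natAbs, Int.cast_abs]
        rw [h5]
        have h6 : ((D.natAbs : ℕ) : ℝ) = (op D.natAbs : ℝ) * (cf D.natAbs : ℝ) ^ 2 := by
          exact_mod_cast op_mul_cf _ hn
        conv_lhs => rw [h6]
        rw [show (op D.natAbs : ℝ) * ((op D.natAbs : ℝ) * (cf D.natAbs : ℝ) ^ 2) =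
          ((op D.natAbs : ℝ) * (cf D.natAbs : ℝ)) ^ 2 by ring]
        exact Real.sqrt_sq (by positivity)
      rw [mul_assoc (Rd a : ℝ), h4]
      have h7 := sqV_le hW D hD.2
      rw [← hM] at h7
      have h8 := NN_nonneg a L n (W.image Subtype.val) (cf D.natAbs)
      have h9 : sqV W D / ((Rd a : ℝ) * ((op D.natAbs : ℝ) * cf D.natAbs)) ≤
          M * wt W (cf D.natAbs) / ((Rd a : ℝ) * ((op D.natAbs : ℝ) * cf D.natAbs)) :=
        div_le_div_of_nonneg_right h7 (by positivity)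
      refine (mul_le_mul_of_nonneg_right h9 h8).trans (le_of_eq ?_)
      simp only
      field_simp
    refine (Finset.sum_le_sum e1).trans ?_
    refine (sum_sym Y (fun m : ℕ => M / Rd a * (1 / (op m : ℝ) * (wt W (cf m) / (cf m : ℝ) *
            NN a L n (W.image Subtype.val) (cf m)))) (fun m => by
              have := NN_nonneg a L n (W.image Subtype.val) (cf m)
              have := wt_pos W (cf m)
              positivity)).trans ?_
    have e2 : ∑ m ∈ Finset.Icc 1 Y, (M / Rd a * (1 / (op m : ℝ) * (wt W (cf m) / (cf m : ℝ) *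
            NN a L n (W.image Subtype.val) (cf m)))) ≤
        M / Rd a * (C3 * (Y : ℝ) ^ (ε / 8) * (C1 W * (Y : ℝ) ^ (ε / 8) * a.divisors.card)) := by
      rw [← Finset.mul_sum]
      refine mul_le_mul_of_nonneg_left ?_ (by positivity)
      refine (sum_opcf Y (fun d f => 1 / (d : ℝ) * (wt W f / (f : ℝ) *
            NN a L n (W.image Subtype.val) f)) (fun d f => by
              have := NN_nonneg a L n (W.image Subtype.val) f
              have := wt_pos W f
              positivity)).trans ?_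
      have e3 : ∑ d ∈ Finset.Icc 1 Y, ∑ f ∈ Finset.Icc 1 Y, (1 / (d : ℝ) * (wt W f / (f : ℝ) *
            NN a L n (W.image Subtype.val) f)) =
          (∑ d ∈ Finset.Icc 1 Y, 1 / (d : ℝ)) * ∑ f ∈ Finset.Icc 1 Y, (wt W f / (f : ℝ) *
            NN a L n (W.image Subtype.val) f) := by
        rw [Finset.sum_mul_sum]
      rw [e3]
      refine mul_le_mul ((harm_le Y).trans (h3 Y hY1)) (h1 W a Y ha hY1) ?_ (by positivity)
      refine Finset.sum_nonneg fun f _ => ?_
      have := NN_nonneg a L n (W.image Subtype.val) f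
      have := wt_pos W f
      positivity
    have e4 : (Y : ℝ) ^ (ε / 8) * (Y : ℝ) ^ (ε / 8) = (5 : ℝ) ^ (ε / 4) * (X : ℝ) ^ (ε / 2) := by
      rw [← Real.rpow_add hYr, hY]
      push_cast
      rw [Real.mul_rpow (by norm_num) (by positivity), ← Real.rpow_natCast, ← Real.rpow_mul hX0.le]
      congr 1
      · congr 1; ring
      · congr 1; push_cast; ring
    calc 2 * ∑ m ∈ Finset.Icc 1 Y, (M / Rd a * (1 / (op m : ℝ) * (wt W (cf m) / (cf m : ℝ) *
            NN a L n (W.image Subtype.val) (cf m))))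
        ≤ 2 * (M / Rd a * (C3 * (Y : ℝ) ^ (ε / 8) * (C1 W * (Y : ℝ) ^ (ε / 8) *
            a.divisors.card))) := by linarith
      _ = 2 * M * C3 * C1 W * ((Y : ℝ) ^ (ε / 8) * (Y : ℝ) ^ (ε / 8)) *
            ((a.divisors.card : ℝ) / Rd a) := by
          field_simp
      _ = _ := by rw [e4]; ring
  have hsum : ∑ a ∈ (Finset.Icc (-(X : ℤ)) X).filter (fun a => a ≠ 0),
        ∑ D ∈ (Finset.Icc (-(Y : ℤ)) (Y : ℤ)).filter (fun D => D ≠ 0),
          sqV W D / ((Rd a.natAbs : ℝ) * Real.sqrt (op D.natAbs) * Real.sqrt |(D : ℝ)|) *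
            NN a.natAbs L n (W.image Subtype.val) (cf D.natAbs) ≤
      ∑ a ∈ (Finset.Icc (-(X : ℤ)) X).filter (fun a => a ≠ 0),
        (fun m : ℕ => (2 * M * C3 * C1 W * (5 : ℝ) ^ (ε / 4)) * (X : ℝ) ^ (ε / 2) *
          ((m.divisors.card : ℝ) / Rd m)) a.natAbs := by
    refine Finset.sum_le_sum fun a ha => ?_
    rw [mem_filter] at ha
    exact hD a.natAbs (Int.natAbs_pos.2 ha.2)
  refine hsum.trans ((sum_sym X (fun m : ℕ => (2 * M * C3 * C1 W * (5 : ℝ) ^ (ε / 4)) *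
    (X : ℝ) ^ (ε / 2) * ((m.divisors.card : ℝ) / Rd m)) (fun m => by
      have := hC1 W
      positivity)).trans ?_)
  rw [← Finset.mul_sum]
  have h5 := h2 X hX
  have h6 : (X : ℝ) ^ (ε / 2) * (X : ℝ) ^ (ε / 4) ≤ (X : ℝ) ^ ε := by
    rw [← Real.rpow_add hX0]
    exact Real.rpow_le_rpow_of_exponent_le hX1 (by linarith)
  have h7 : 0 < C1 W := hC1 W
  calc 2 * ((2 * M * C3 * C1 W * (5 : ℝ) ^ (ε / 4)) * (X : ℝ) ^ (ε / 2) *
        ∑ m ∈ Finset.Icc 1 X, (m.divisors.card : ℝ) / Rd m)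
      ≤ 2 * ((2 * M * C3 * C1 W * (5 : ℝ) ^ (ε / 4)) * (X : ℝ) ^ (ε / 2) *
        (C2 * (X : ℝ) ^ (ε / 4))) := by
        refine mul_le_mul_of_nonneg_left ?_ (by norm_num)
        exact mul_le_mul_of_nonneg_left h5 (by positivity)
    _ = (2 * C2 * (2 * M * C3 * C1 W * (5 : ℝ) ^ (ε / 4))) *
        ((X : ℝ) ^ (ε / 2) * (X : ℝ) ^ (ε / 4)) := by ring
    _ ≤ _ := mul_le_mul_of_nonneg_left h6 (by positivity)

end Q273.QP
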