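import Pool.Agent.Q273.QP.T1end
import Pool.Agent.Q150.QP.T2fin
import Pool.Agent.Q26.QP.L2fin
import Pool.Agent.Q26.QP.Nloc
import Pool.Agent.Q26.QP.Sumf
import Pool.Agent.Q285.QP.Pig
import Pool.Agent.Q285.QP.Real
import Pool.Agent.Q66.QP.BC
import Pool.Agent.Q66.QP.Haar
import Pool.Agent.Q24.QP.BALLS
import Pool.Agent.Q38.QPS.SumB
import Pool.Agent.Q223.QP.Law

/-!
# The laws of the project QP, assembled
-/

set_option autoImplicit false

namespace Q273.QP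

theorem meas' : S_MEAS :=
  Pool.Agent.Q66.QP.meas Pool.Agent.Q66.QP.haar Pool.Agent.Q24.QP.balls

theorem lin' : S_LIN := Pool.Agent.Q66.QP.lin Pool.Agent.Q66.QP.haar

theorem t1fin' : S_T1fin :=
  t1fin Pool.Agent.Q285.QP.over_ meas' Pool.Agent.Q26.QP.nloc Pool.Agent.Q26.QP.sumf
    Pool.Agent.Q26.QP.sumrad lin' Pool.Agent.Q66.QP.bc

theorem t2fin' : S_T2fin :=
  Pool.Agent.Q150.QP.t2fin Pool.Agent.Q285.QP.one meas' Pool.Agent.Q26.QP.sumrad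
    Pool.Agent.Q38.QPS.sumb Pool.Agent.Q66.QP.bc

theorem l2fin' : S_L2fin := Q26.QP.l2fin lin' Pool.Agent.Q26.QP.sumrad Pool.Agent.Q66.QP.bc

theorem lawq : S_LAWQ :=
  Pool.Agent.Q223.QP.law t1fin' t2fin' l2fin' Pool.Agent.Q285.QP.pig

end Q273.QP
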