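import Mathlib

/-!
# Möbius transformations of the real line preserve null sets
-/

set_option autoImplicit false

open MeasureTheory

namespace Q273.QP

/-- the Möbius transformation -/
noncomputable def mob (u v t s : ℤ) (x : ℝ) : ℝ := ((s : ℝ) * x - t) / ((u : ℝ) - v * x)

lemma mob_meas (u v t s : ℤ) : Measurable (mob u v t s) := by
  unfold mob
  fun_prop

lemma pole_null (u v : ℤ) (h : IsCoprime u v) : volume {x : ℝ | (u : ℝ) - v * x = 0} = 0 := by
  by_cases hv : v = 0
  · have hu : u ≠ 0 := by
      rintro rfl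
      rw [hv] at h
      exact not_isCoprime_zero_zero h
    have : {x : ℝ | (u : ℝ) - v * x = 0} = ∅ := by
      ext x
      simp [hv, hu]
    rw [this, measure_empty]
  · refine measure_mono_null (t := {(u : ℝ) / v}) ?_ (measure_singleton _)
    intro x hx
    have hv' : (v : ℝ) ≠ 0 := by exact_mod_cast hv
    have hx' : (u : ℝ) - v * x = 0 := hx
    rw [Set.mem_singleton_iff, eq_div_iff hv']
    linarith

theorem mob_qmp (u v t s : ℤ) (h : u * s - v * t = 1) :
    Measure.QuasiMeasurePreserving (mob u v t s) volume volume := by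
  refine ⟨mob_meas u v t s, Measure.AbsolutelyContinuous.mk fun N hN h0 => ?_⟩
  rw [Measure.map_apply (mob_meas u v t s) hN]
  have hcop : IsCoprime u v := ⟨s, -t, by linarith⟩
  -- the inverse
  let ψ : ℝ → ℝ := fun y => ((u : ℝ) * y + t) / ((v : ℝ) * y + s)
  have hdet : (u : ℝ) * s - v * t = 1 := by exact_mod_cast h
  have hsub : mob u v t s ⁻¹' N ⊆ {x : ℝ | (u : ℝ) - v * x = 0} ∪
      ψ '' (N ∩ {y : ℝ | (v : ℝ) * y + s ≠ 0}) := by
    intro x hx
    by_cases hp : (u : ℝ) - v * x = 0
    · exact Or.inl hp
    · right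
      have e0 : mob u v t s x * ((u : ℝ) - v * x) = (s : ℝ) * x - t := by
        unfold mob
        exact div_mul_cancel₀ _ hp
      have e1 : (v : ℝ) * mob u v t s x + s = 1 / ((u : ℝ) - v * x) := by
        rw [eq_div_iff hp]
        linear_combination (v : ℝ) * e0 + hdet
      have e2 : (u : ℝ) * mob u v t s x + t = x / ((u : ℝ) - v * x) := by
        rw [eq_div_iff hp]
        linear_combination (u : ℝ) * e0 + x * hdet
      refine ⟨mob u v t s x, ⟨hx, ?_⟩, ?_⟩
      · show (v : ℝ) * mob u v t s x + s ≠ 0
        rw [e1]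
        exact one_div_ne_zero hp
      · show ((u : ℝ) * mob u v t s x + t) / ((v : ℝ) * mob u v t s x + s) = x
        rw [e1, e2, div_div_div_cancel_right₀ hp, div_one]
  refine measure_mono_null hsub (measure_union_null (pole_null u v hcop) ?_)
  refine addHaar_image_eq_zero_of_differentiableOn_of_addHaar_eq_zero volume ?_
    (measure_mono_null Set.inter_subset_left h0)
  intro y hy
  refine DifferentiableAt.differentiableWithinAt ?_
  have hy2 : (v : ℝ) * y + s ≠ 0 := hy.2
  exact DifferentiableAt.div (by fun_prop) (by fun_prop) hy2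

theorem prod_qmp {Y : Type*} [MeasurableSpace Y] (μ : Measure Y) [SFinite μ] {φ : ℝ → ℝ}
    (hφ : Measure.QuasiMeasurePreserving φ volume volume) :
    Measure.QuasiMeasurePreserving (fun w : ℝ × Y => (φ w.1, w.2)) (volume.prod μ)
      (volume.prod μ) := by
  have hm : Measurable (fun w : ℝ × Y => (φ w.1, w.2)) :=
    (hφ.measurable.comp measurable_fst).prodMk measurable_snd
  refine ⟨hm, Measure.AbsolutelyContinuous.mk fun N hN h0 => ?_⟩
  rw [Measure.map_apply hm hN, Measure.measure_prod_null (hm hN)]
  have h1 := (Measure.measure_prod_null hN).1 h0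
  have h2 := hφ.ae h1
  filter_upwards [h2] with x hx
  exact hx

end Q273.QP
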