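import Pool.Agent.Q273.QP.Stm

/-!
# Statements of the finiteness theorems of the project QP
-/

set_option autoImplicit false

open MeasureTheory

namespace Q273.QP

/-- the value of the form `a X² + b X Z + c Z²` at `(u, v)` -/
def Fv (u v : ℤ) (x : ℤ × ℤ × ℤ) : ℤ := x.1 * u ^ 2 + x.2.1 * (u * v) + x.2.2 * v ^ 2

/-- the value of the linear form `q X + s Z` at `(u, v)` -/
def Lv (u v : ℤ) (x : ℤ × ℤ) : ℤ := x.1 * u + x.2 * v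

/-- the largest absolute value of the coefficients -/
def H3 (x : ℤ × ℤ × ℤ) : ℕ := max (max x.1.natAbs x.2.1.natAbs) x.2.2.natAbs

/-- the largest absolute value of the coefficients -/
def H2 (x : ℤ × ℤ) : ℕ := max x.1.natAbs x.2.natAbs

/-- one rational point, with the discriminant -/
def S_T1fin : Prop :=
  ∀ [MeasurableSpace ZHat] [BorelSpace ZHat] (μ : Measure ZHat) [IsFiniteMeasure μ]
    [μ.IsAddLeftInvariant] (V : Finset Nat.Primes) (u v : ℤ) (ε : ℝ), IsCoprime u v → 0 < ε →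
    ∀ᵐ w : ℝ × ZHat ∂(volume.prod μ), {x : ℤ × ℤ × ℤ | Prim x.1 x.2.1 x.2.2 ∧
      dsc x.1 x.2.1 x.2.2 ≠ 0 ∧ Fv u v x ≠ 0 ∧
      vR x.1 x.2.1 x.2.2 w.1 * ∏ p ∈ V, vP p x.1 x.2.1 x.2.2 (w.2 p) ≤
        1 / ((Rd (Fv u v x).natAbs : ℝ) * Real.sqrt (op (dsc x.1 x.2.1 x.2.2).natAbs)) *
          (H3 x : ℝ) ^ (-ε)}.Finite

/-- job T2FIN: two rational points -/
def S_T2fin : Prop :=
  ∀ [MeasurableSpace ZHat] [BorelSpace ZHat] (μ : Measure ZHat) [IsFiniteMeasure μ]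
    [μ.IsAddLeftInvariant] (V : Finset Nat.Primes) (u v u' v' : ℤ) (ε : ℝ),
    u * v' - u' * v ≠ 0 → 0 < ε →
    ∀ᵐ w : ℝ × ZHat ∂(volume.prod μ), {x : ℤ × ℤ × ℤ | Prim x.1 x.2.1 x.2.2 ∧ x.1 ≠ 0 ∧
      dsc x.1 x.2.1 x.2.2 ≠ 0 ∧ Fv u v x ≠ 0 ∧ Fv u' v' x ≠ 0 ∧
      vR x.1 x.2.1 x.2.2 w.1 * ∏ p ∈ V, vP p x.1 x.2.1 x.2.2 (w.2 p) ≤
        1 / ((Rd (Fv u v x).natAbs : ℝ) * Rd (Fv u' v' x).natAbs) * (H3 x : ℝ) ^ (-ε)}.Finite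

/-- job L2FIN: linear polynomials -/
def S_L2fin : Prop :=
  ∀ [MeasurableSpace ZHat] [BorelSpace ZHat] (μ : Measure ZHat) [IsFiniteMeasure μ]
    [μ.IsAddLeftInvariant] (V : Finset Nat.Primes) (u v u' v' : ℤ) (ε : ℝ),
    u * v' - u' * v ≠ 0 → 0 < ε →
    ∀ᵐ w : ℝ × ZHat ∂(volume.prod μ), {x : ℤ × ℤ | IsCoprime x.1 x.2 ∧
      Lv u v x ≠ 0 ∧ Lv u' v' x ≠ 0 ∧
      |(x.1 : ℝ) * w.1 + x.2| * ∏ p ∈ V, lP p x.1 x.2 (w.2 p) ≤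
        1 / ((Rd (Lv u v x).natAbs : ℝ) * Rd (Lv u' v' x).natAbs) * (H2 x : ℝ) ^ (1 - ε)}.Finite

end Q273.QP
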