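import Pool.Agent.Q273.QP.T1fin

/-!
# One rational point: the theorem
-/

set_option autoImplicit false

namespace Q273.QP

open Finset MeasureTheory Filter

lemma pole_ae (hlin : S_LIN) [MeasurableSpace ZHat] [BorelSpace ZHat] (μ : Measure ZHat)
    [IsFiniteMeasure μ] [μ.IsAddLeftInvariant] (p : Nat.Primes) (c d : ℤ) (h : IsCoprime c d) :
    ∀ᵐ η : ZHat ∂μ, lP p c d (η p) ≠ 0 := by
  rw [ae_iff]
  simp only [ne_eq, not_not]
  have hp1 : (1 : ℝ) < (p : ℝ) := by exact_mod_cast p.2.one_lt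
  have hp0 : (0 : ℝ) < (p : ℝ) := by linarith
  have h1 : ∀ j : ℕ, μ {η : ZHat | lP p c d (η p) = 0} ≤
      μ Set.univ * ENNReal.ofReal ((p : ℝ) ^ (-(j : ℤ))) := by
    intro j
    have h2 := hlin μ {p} c d h (fun _ => j)
    simp only [Finset.mem_singleton, forall_eq, Finset.prod_singleton] at h2
    refine (measure_mono ?_).trans h2
    intro η hη
    have : lP p c d (η p) = 0 := hη
    show lP p c d (η p) ≤ _
    rw [this]
    exact (zpow_pos hp0 _).le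
  have h2 : Tendsto (fun j : ℕ => μ Set.univ * ENNReal.ofReal ((p : ℝ) ^ (-(j : ℤ)))) atTop
      (nhds 0) := by
    have h3 : Tendsto (fun j : ℕ => (p : ℝ) ^ (-(j : ℤ))) atTop (nhds 0) := by
      have h4 := tendsto_pow_atTop_nhds_zero_of_lt_one (inv_nonneg.2 hp0.le) (inv_lt_one_of_one_lt₀ hp1)
      refine h4.congr fun j => ?_
      rw [zpow_neg, zpow_natCast, inv_pow]
    have h5 := ENNReal.tendsto_ofReal h3
    rw [ENNReal.ofReal_zero] at h5
    have h6 := ENNReal.Tendsto.const_mul (a := μ Set.univ) h5 (Or.inr (measure_ne_top μ _))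
    rwa [mul_zero] at h6
  exact le_antisymm (ge_of_tendsto' h2 h1) zero_le

theorem t1fin (hover : S_OVER) (hmeas : S_MEAS) (hnloc : S_NLOC) (hsumf : S_SUMF)
    (hrad : S_SUMRAD) (hlin : S_LIN) (hbc : S_BC) : S_T1fin := by
  intro _ _ μ _ _ V u v ε hcop hε
  classical
  obtain ⟨s, t', hst⟩ := hcop
  obtain ⟨t, ht⟩ : ∃ t : ℤ, t = -t' := ⟨_, rfl⟩
  have h : u * s - v * t = 1 := by rw [ht]; linarith
  have hcop : IsCoprime u v := ⟨s, t', hst⟩
  have hcop' : IsCoprime (-v) u := (IsCoprime.neg_left hcop.symm)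
  obtain ⟨m1, hm1⟩ := one_place hmeas μ
  have hb := hbc μ Idx V (fun i => Hx i.1) (fun X => hfin X) (fun i => w1 i.1)
    (fun i ξ => vR i.1.1 i.1.2.1 i.1.2.2 ξ)
    (fun i p η => vP p (TA v s i.1.1 i.1.2.1 i.1.2.2) (TB u v t s i.1.1 i.1.2.1 i.1.2.2)
              (TC u t i.1.1 i.1.2.1 i.1.2.2) η)
    (fun n p => {η | (p : ℝ) ^ (-(n : ℤ)) ≤ lP p (-v) u η}) (ε / 2) (by positivity)
    (fun i => w1_nonneg _) (fun i ξ => abs_nonneg _) (fun i p η => h_form _ _ _ _ _)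
    ⟨m1, fun i p _ j => by
      refine hm1 p _ _ _ (Hx i.1) (prim_T u v t s _ _ _ h i.2.1) ?_ ?_ j
      · rw [dsc_T _ _ _ _ _ _ _ h]; exact i.2.2.2
      · rw [dsc_T _ _ _ _ _ _ _ h]; exact dsc_abs_le le_rfl⟩
    ⟨8, fun X => card_hfin X⟩
    (fun n => t1_sum hover hmeas hnloc hsumf hrad μ V u v t s h (ε / 2) (by positivity) n)
  have hae1 := (prod_qmp μ (mob_qmp u v t s h)).ae hb
  have hae2 : ∀ᵐ w : ℝ × ZHat ∂(volume.prod μ), (u : ℝ) - v * w.1 ≠ 0 := by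
    have h1 : ∀ᵐ x : ℝ, (u : ℝ) - v * x ≠ 0 := by
      rw [ae_iff]
      simp only [ne_eq, not_not]
      exact pole_null u v hcop
    exact Measure.quasiMeasurePreserving_fst.ae h1
  have hae3 : ∀ᵐ w : ℝ × ZHat ∂(volume.prod μ), ∀ p ∈ V, lP p (-v) u (w.2 p) ≠ 0 := by
    have h1 : ∀ᵐ η : ZHat ∂μ, ∀ p ∈ V, lP p (-v) u (η p) ≠ 0 :=
      (ae_ball_iff V.countable_toSet).2 fun p _ => pole_ae hlin μ p (-v) u hcop'
    exact Measure.quasiMeasurePreserving_snd.ae h1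
  filter_upwards [hae1, hae2, hae3] with w hw1 hw2 hw3
  -- the exponent of the compact set
  obtain ⟨n, hn1, hn2⟩ : ∃ n : ℕ, |mob u v t s w.1| ≤ n ∧
      ∀ p ∈ V, (p : ℝ) ^ (-(n : ℤ)) ≤ lP p (-v) u (w.2 p) := by
    obtain ⟨n0, hn0⟩ := exists_nat_ge |mob u v t s w.1|
    have hex : ∀ p : Nat.Primes, ∃ k : ℕ, p ∈ V → (p : ℝ) ^ (-(k : ℤ)) ≤ lP p (-v) u (w.2 p) := by
      intro p
      by_cases hp : p ∈ V
      · have hpos : 0 < lP p (-v) u (w.2 p) :=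
          lt_of_le_of_ne (by unfold lP; exact norm_nonneg _) (Ne.symm (hw3 p hp))
        have hp1 : (1 : ℝ) < (p : ℝ) := by exact_mod_cast p.2.one_lt
        have hp0 : (0 : ℝ) < (p : ℝ) := by linarith
        obtain ⟨k, hk⟩ := exists_pow_lt_of_lt_one hpos (inv_lt_one_of_one_lt₀ hp1)
        refine ⟨k, fun _ => ?_⟩
        rw [zpow_neg, zpow_natCast, ← inv_pow]
        exact hk.le
      · exact ⟨0, fun h => absurd h hp⟩
    choose k hk using hex
    refine ⟨max n0 (V.sup k), ?_, fun p hp => ?_⟩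
    · refine hn0.trans ?_
      exact_mod_cast le_max_left _ _
    · refine le_trans ?_ (hk p hp)
      have hp1 : (1 : ℝ) ≤ (p : ℝ) := by exact_mod_cast p.2.one_le
      refine zpow_le_zpow_right₀ hp1 ?_
      have : k p ≤ V.sup k := Finset.le_sup hp
      have h2 : V.sup k ≤ max n0 (V.sup k) := le_max_right _ _
      omega
  have hfinite := hw1 ⟨n, hn1, hn2⟩
  -- large heights
  obtain ⟨c0, hc0⟩ : ∃ c0 : ℕ, ((c0 : ℕ) : ℤ) = 2 * (|u| + |v| + |t| + |s|) ^ 2 :=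
    ⟨(2 * (|u| + |v| + |t| + |s|) ^ 2).toNat, Int.toNat_of_nonneg (by positivity)⟩
  set D : ℝ := (u : ℝ) - v * w.1 with hD
  have hD2 : 0 < D ^ 2 := by positivity
  obtain ⟨N0, hN0⟩ : ∃ N0 : ℕ, ∀ H : ℕ, N0 ≤ H →
      (2 * ((c0 : ℝ) * H)) ^ (ε / 2) ≤ D ^ 2 * (H : ℝ) ^ ε := by
    have h1 : Tendsto (fun H : ℕ => (H : ℝ) ^ (ε / 2)) atTop atTop :=
      (tendsto_rpow_atTop (by positivity)).comp tendsto_natCast_atTop_atTop
    obtain ⟨N, hN⟩ := eventually_atTop.1 (h1.eventually_ge_atTop ((2 * (c0 : ℝ)) ^ (ε / 2) / D ^ 2))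
    refine ⟨N, fun H hH => ?_⟩
    have h2 := hN H hH
    rw [div_le_iff₀ hD2] at h2
    have e1 : (2 * ((c0 : ℝ) * H)) ^ (ε / 2) = (2 * (c0 : ℝ)) ^ (ε / 2) * (H : ℝ) ^ (ε / 2) := by
      rw [← mul_assoc, Real.mul_rpow (by positivity) (by positivity)]
    have e2 : (H : ℝ) ^ ε = (H : ℝ) ^ (ε / 2) * (H : ℝ) ^ (ε / 2) := by
      rcases Nat.eq_zero_or_pos H with hz | hz
      · rw [hz, Nat.cast_zero, Real.zero_rpow hε.ne', Real.zero_rpow (by positivity), mul_zero]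
      · rw [← Real.rpow_add (by exact_mod_cast hz)]
        congr 1; ring
    rw [e1, e2]
    have h3 : (0 : ℝ) ≤ (H : ℝ) ^ (ε / 2) := by positivity
    calc (2 * (c0 : ℝ)) ^ (ε / 2) * (H : ℝ) ^ (ε / 2)
        ≤ ((H : ℝ) ^ (ε / 2) * D ^ 2) * (H : ℝ) ^ (ε / 2) := mul_le_mul_of_nonneg_right h2 h3
      _ = _ := by ring
  refine ((box N0).finite_toSet.union
    ((hfinite.image Subtype.val).preimage (tI_inj h).injOn)).subset ?_
  rintro x ⟨hx1, hx2, hx3, hx4⟩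
  by_cases hsmall : H3 x ≤ N0
  · left
    exact mem_coe.2 (mem_box.2 hsmall)
  right
  push Not at hsmall
  have hprim := tI_prim h x hx1
  have hdsc := tI_dsc h x
  have hq : Prim (tI u v t s x).1 (tI u v t s x).2.1 (tI u v t s x).2.2 ∧ (tI u v t s x).1 ≠ 0 ∧
      dsc (tI u v t s x).1 (tI u v t s x).2.1 (tI u v t s x).2.2 ≠ 0 :=
    ⟨hprim, hx3, by rw [hdsc]; exact hx2⟩
  refine ⟨⟨tI u v t s x, hq⟩, ⟨?_, ?_⟩, rfl⟩
  · show 1 ≤ Hx (tI u v t s x)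
    have h1 : (tI u v t s x).1.natAbs ≠ 0 := Int.natAbs_ne_zero.2 hx3
    unfold Hx
    omega
  · show vR (tI u v t s x).1 (tI u v t s x).2.1 (tI u v t s x).2.2 (mob u v t s w.1) *
      ∏ p ∈ V, vP p (TA v s (tI u v t s x).1 (tI u v t s x).2.1 (tI u v t s x).2.2)
        (TB u v t s (tI u v t s x).1 (tI u v t s x).2.1 (tI u v t s x).2.2)
        (TC u t (tI u v t s x).1 (tI u v t s x).2.1 (tI u v t s x).2.2) (w.2 p) ≤
      w1 (tI u v t s x) * (2 * (Hx (tI u v t s x) : ℝ)) ^ (-(ε / 2))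
    rw [tI_A h x, tI_B h x, tI_C h x]
    rw [vR_mob h x w.1 hw2] at hx4
    have hw : w1 (tI u v t s x) =
        1 / ((Rd (Fv u v x).natAbs : ℝ) * Real.sqrt (op (dsc x.1 x.2.1 x.2.2).natAbs)) := by
      unfold w1
      rw [hdsc]
      rfl
    rw [← hw] at hx4
    set PP : ℝ := ∏ p ∈ V, vP p x.1 x.2.1 x.2.2 (w.2 p) with hPP
    set R : ℝ := vR (tI u v t s x).1 (tI u v t s x).2.1 (tI u v t s x).2.2
      (mob u v t s w.1) with hR
    have hHpos : 0 < H3 x := by omega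
    have hHr : (0 : ℝ) < (H3 x : ℝ) := by exact_mod_cast hHpos
    have hHx1 : 1 ≤ Hx (tI u v t s x) := by
      have h1 : (tI u v t s x).1.natAbs ≠ 0 := Int.natAbs_ne_zero.2 hx3
      unfold Hx
      omega
    have hHxr : (0 : ℝ) < (Hx (tI u v t s x) : ℝ) := by exact_mod_cast hHx1
    have hle : (Hx (tI u v t s x) : ℝ) ≤ (c0 : ℝ) * H3 x := by
      have h1 := tI_H u v t s x
      rw [← hc0] at h1
      exact_mod_cast h1
    have h5 := hN0 (H3 x) hsmall.le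
    have h6 : (2 * (Hx (tI u v t s x) : ℝ)) ^ (ε / 2) ≤ D ^ 2 * (H3 x : ℝ) ^ ε := by
      refine le_trans ?_ h5
      exact Real.rpow_le_rpow (by positivity) (by linarith) (by positivity)
    have h7 : R * PP ≤ w1 (tI u v t s x) * ((D ^ 2)⁻¹ * (H3 x : ℝ) ^ (-ε)) := by
      have h8 : D ^ 2 * (R * PP) ≤ w1 (tI u v t s x) * (H3 x : ℝ) ^ (-ε) := by
        calc D ^ 2 * (R * PP) = D ^ 2 * R * PP := by ring
          _ ≤ _ := hx4
      calc R * PP = (D ^ 2)⁻¹ * (D ^ 2 * (R * PP)) := by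
            rw [← mul_assoc, inv_mul_cancel₀ hD2.ne', one_mul]
        _ ≤ (D ^ 2)⁻¹ * (w1 (tI u v t s x) * (H3 x : ℝ) ^ (-ε)) :=
            mul_le_mul_of_nonneg_left h8 (by positivity)
        _ = _ := by ring
    refine h7.trans (mul_le_mul_of_nonneg_left ?_ (w1_nonneg _))
    rw [Real.rpow_neg hHr.le, Real.rpow_neg (by positivity), ← mul_inv]
    exact inv_anti₀ (Real.rpow_pos_of_pos (by positivity) _) h6

end Q273.QP
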