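import Pool.Agent.Q273.QP.T1
import Pool.Agent.Q273.QP.Mob
import Pool.Agent.Q273.QP.Stm2

/-!
# One rational point
-/

set_option autoImplicit false

namespace Q273.QP

open Finset MeasureTheory

/-- the transformed polynomial -/
def tI (u v t s : ℤ) (x : ℤ × ℤ × ℤ) : ℤ × ℤ × ℤ :=
  (Fv u v x, 2 * x.1 * (u * t) + x.2.1 * (u * s + v * t) + 2 * x.2.2 * (v * s),
    x.1 * t ^ 2 + x.2.1 * (t * s) + x.2.2 * s ^ 2)

lemma tI_A {u v t s : ℤ} (h : u * s - v * t = 1) (x : ℤ × ℤ × ℤ) :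
    TA v s (tI u v t s x).1 (tI u v t s x).2.1 (tI u v t s x).2.2 = x.1 := by
  have e : x.1 = (u * s - v * t) ^ 2 * x.1 := by rw [h]; ring
  rw [e]
  simp only [TA, tI, Fv]
  ring

lemma tI_B {u v t s : ℤ} (h : u * s - v * t = 1) (x : ℤ × ℤ × ℤ) :
    TB u v t s (tI u v t s x).1 (tI u v t s x).2.1 (tI u v t s x).2.2 = x.2.1 := by
  have e : x.2.1 = (u * s - v * t) ^ 2 * x.2.1 := by rw [h]; ring
  rw [e]
  simp only [TB, tI, Fv]
  ring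

lemma tI_C {u v t s : ℤ} (h : u * s - v * t = 1) (x : ℤ × ℤ × ℤ) :
    TC u t (tI u v t s x).1 (tI u v t s x).2.1 (tI u v t s x).2.2 = x.2.2 := by
  have e : x.2.2 = (u * s - v * t) ^ 2 * x.2.2 := by rw [h]; ring
  rw [e]
  simp only [TC, tI, Fv]
  ring

lemma tI_dsc {u v t s : ℤ} (h : u * s - v * t = 1) (x : ℤ × ℤ × ℤ) :
    dsc (tI u v t s x).1 (tI u v t s x).2.1 (tI u v t s x).2.2 = dsc x.1 x.2.1 x.2.2 := by
  have e : dsc x.1 x.2.1 x.2.2 = (u * s - v * t) ^ 2 * dsc x.1 x.2.1 x.2.2 := by rw [h]; ring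
  rw [e]
  simp only [dsc, tI, Fv]
  ring

lemma tI_inj {u v t s : ℤ} (h : u * s - v * t = 1) : Function.Injective (tI u v t s) := by
  intro x y hxy
  have h1 := tI_A h x
  have h2 := tI_B h x
  have h3 := tI_C h x
  rw [hxy] at h1 h2 h3
  rw [tI_A h y] at h1
  rw [tI_B h y] at h2
  rw [tI_C h y] at h3
  exact Prod.ext h1.symm (Prod.ext h2.symm h3.symm)

lemma tI_prim {u v t s : ℤ} (h : u * s - v * t = 1) (x : ℤ × ℤ × ℤ)
    (hp : Prim x.1 x.2.1 x.2.2) :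
    Prim (tI u v t s x).1 (tI u v t s x).2.1 (tI u v t s x).2.2 := by
  obtain ⟨α, β, γ, hx⟩ := hp
  refine ⟨α * s ^ 2 - 2 * β * s * t + γ * t ^ 2, -(α * s * v) + β * (s * u + t * v) - γ * t * u,
    α * v ^ 2 - 2 * β * u * v + γ * u ^ 2, ?_⟩
  have h1 := tI_A h x
  have h2 := tI_B h x
  have h3 := tI_C h x
  simp only [TA, TB, TC] at h1 h2 h3
  linear_combination hx + α * h1 + β * h2 + γ * h3

lemma abs_le_H {x : ℤ × ℤ × ℤ} : |x.1| ≤ (H3 x : ℤ) ∧ |x.2.1| ≤ (H3 x : ℤ) ∧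
    |x.2.2| ≤ (H3 x : ℤ) := by
  unfold H3
  rw [Int.abs_eq_natAbs, Int.abs_eq_natAbs, Int.abs_eq_natAbs]
  omega

lemma tI_H (u v t s : ℤ) (x : ℤ × ℤ × ℤ) :
    (Hx (tI u v t s x) : ℤ) ≤ 2 * (|u| + |v| + |t| + |s|) ^ 2 * H3 x := by
  obtain ⟨ha, hb, hc⟩ := abs_le_H (x := x)
  obtain ⟨hu, hv, ht, hs⟩ := (⟨abs_nonneg u, abs_nonneg v, abs_nonneg t, abs_nonneg s⟩ :
    0 ≤ |u| ∧ 0 ≤ |v| ∧ 0 ≤ |t| ∧ 0 ≤ |s|)
  have hH : (0 : ℤ) ≤ H3 x := Int.natCast_nonneg _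
  have k : ∀ (m y : ℤ), |y| ≤ (H3 x : ℤ) → |y * m| ≤ H3 x * |m| := by
    intro m y hy
    rw [abs_mul]
    exact mul_le_mul_of_nonneg_right hy (abs_nonneg _)
  have e1 : |(tI u v t s x).1| ≤ 2 * (|u| + |v| + |t| + |s|) ^ 2 * H3 x := by
    have h0 : (tI u v t s x).1 = x.1 * u ^ 2 + x.2.1 * (u * v) + x.2.2 * v ^ 2 := rfl
    rw [h0]
    refine (abs_add_three _ _ _).trans ?_
    have h1 := k (u ^ 2) _ ha
    have h2 := k (u * v) _ hb
    have h3 := k (v ^ 2) _ hc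
    rw [abs_pow] at h1 h3
    rw [abs_mul u v] at h2
    have : (H3 x : ℤ) * |u| ^ 2 + H3 x * (|u| * |v|) + H3 x * |v| ^ 2 ≤
        2 * (|u| + |v| + |t| + |s|) ^ 2 * H3 x := by
      have h5 : |u| ^ 2 + |u| * |v| + |v| ^ 2 ≤ 2 * (|u| + |v| + |t| + |s|) ^ 2 := by
        nlinarith [mul_nonneg hu hv, mul_nonneg hu ht, mul_nonneg hu hs, mul_nonneg hv ht,
          mul_nonneg hv hs, mul_nonneg ht hs]
      nlinarith [mul_le_mul_of_nonneg_left h5 hH]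
    linarith
  have e2 : |(tI u v t s x).2.1| ≤ 2 * (|u| + |v| + |t| + |s|) ^ 2 * H3 x := by
    have h0 : (tI u v t s x).2.1 = x.1 * (2 * (u * t)) + x.2.1 * (u * s + v * t) +
        x.2.2 * (2 * (v * s)) := by
      simp only [tI]; ring
    rw [h0]
    refine (abs_add_three _ _ _).trans ?_
    have h1 := k (2 * (u * t)) _ ha
    have h2 := k (u * s + v * t) _ hb
    have h3 := k (2 * (v * s)) _ hc
    have g1 : |2 * (u * t)| = 2 * (|u| * |t|) := by rw [abs_mul, abs_mul]; norm_num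
    have g3 : |2 * (v * s)| = 2 * (|v| * |s|) := by rw [abs_mul, abs_mul]; norm_num
    have g2 : |u * s + v * t| ≤ |u| * |s| + |v| * |t| := by
      refine (abs_add_le _ _).trans ?_
      rw [abs_mul, abs_mul]
    rw [g1] at h1
    rw [g3] at h3
    have h2' := mul_le_mul_of_nonneg_left g2 hH
    have : (H3 x : ℤ) * (2 * (|u| * |t|)) + H3 x * (|u| * |s| + |v| * |t|) +
        H3 x * (2 * (|v| * |s|)) ≤ 2 * (|u| + |v| + |t| + |s|) ^ 2 * H3 x := by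
      have h5 : 2 * (|u| * |t|) + (|u| * |s| + |v| * |t|) + 2 * (|v| * |s|) ≤
          2 * (|u| + |v| + |t| + |s|) ^ 2 := by
        nlinarith [mul_nonneg hu hv, mul_nonneg hu ht, mul_nonneg hu hs, mul_nonneg hv ht,
          mul_nonneg hv hs, mul_nonneg ht hs]
      nlinarith [mul_le_mul_of_nonneg_left h5 hH]
    linarith
  have e3 : |(tI u v t s x).2.2| ≤ 2 * (|u| + |v| + |t| + |s|) ^ 2 * H3 x := by
    have h0 : (tI u v t s x).2.2 = x.1 * t ^ 2 + x.2.1 * (t * s) + x.2.2 * s ^ 2 := rfl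
    rw [h0]
    refine (abs_add_three _ _ _).trans ?_
    have h1 := k (t ^ 2) _ ha
    have h2 := k (t * s) _ hb
    have h3 := k (s ^ 2) _ hc
    rw [abs_pow] at h1 h3
    rw [abs_mul t s] at h2
    have : (H3 x : ℤ) * |t| ^ 2 + H3 x * (|t| * |s|) + H3 x * |s| ^ 2 ≤
        2 * (|u| + |v| + |t| + |s|) ^ 2 * H3 x := by
      have h5 : |t| ^ 2 + |t| * |s| + |s| ^ 2 ≤ 2 * (|u| + |v| + |t| + |s|) ^ 2 := by
        nlinarith [mul_nonneg hu hv, mul_nonneg hu ht, mul_nonneg hu hs, mul_nonneg hv ht,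
          mul_nonneg hv hs, mul_nonneg ht hs]
      nlinarith [mul_le_mul_of_nonneg_left h5 hH]
    linarith
  unfold Hx
  push_cast
  rw [max_le_iff, max_le_iff]
  exact ⟨⟨e1, e2⟩, e3⟩

lemma vR_mob {u v t s : ℤ} (h : u * s - v * t = 1) (x : ℤ × ℤ × ℤ) (ξ : ℝ)
    (hξ : (u : ℝ) - v * ξ ≠ 0) :
    vR x.1 x.2.1 x.2.2 ξ = ((u : ℝ) - v * ξ) ^ 2 *
      vR (tI u v t s x).1 (tI u v t s x).2.1 (tI u v t s x).2.2 (mob u v t s ξ) := by
  have e0 : mob u v t s ξ * ((u : ℝ) - v * ξ) = (s : ℝ) * ξ - t := by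
    unfold mob
    exact div_mul_cancel₀ _ hξ
  unfold vR
  rw [← abs_of_nonneg (sq_nonneg ((u : ℝ) - v * ξ)), ← abs_mul]
  congr 1
  have h1 : ((TA v s (tI u v t s x).1 (tI u v t s x).2.1 (tI u v t s x).2.2 : ℤ) : ℝ) = x.1 := by
    rw [tI_A h x]
  have h2 : ((TB u v t s (tI u v t s x).1 (tI u v t s x).2.1 (tI u v t s x).2.2 : ℤ) : ℝ) =
      x.2.1 := by
    rw [tI_B h x]
  have h3 : ((TC u t (tI u v t s x).1 (tI u v t s x).2.1 (tI u v t s x).2.2 : ℤ) : ℝ) =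
      x.2.2 := by
    rw [tI_C h x]
  rw [← h1, ← h2, ← h3]
  generalize (tI u v t s x).1 = A
  generalize (tI u v t s x).2.1 = B
  generalize (tI u v t s x).2.2 = C
  simp only [TA, TB, TC]
  push_cast
  set m := mob u v t s ξ
  linear_combination (-(A : ℝ) * (m * ((u : ℝ) - v * ξ) + ((s : ℝ) * ξ - t)) -
    B * ((u : ℝ) - v * ξ)) * e0

lemma h_form (p : Nat.Primes) (a b c : ℤ) (η : @PadicInt p.1 ⟨p.2⟩) :
    ∃ j : ℕ, vP p a b c η = (p : ℝ) ^ (-(j : ℤ)) ∨ vP p a b c η = 0 := by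
  haveI : Fact p.1.Prime := ⟨p.2⟩
  unfold vP
  by_cases h : (a : ℤ_[p.1]) * η ^ 2 + b * η + c = 0
  · exact ⟨0, Or.inr (by rw [h, norm_zero])⟩
  · exact ⟨_, Or.inl (PadicInt.norm_eq_zpow_neg_valuation h)⟩

lemma one_place (hmeas : S_MEAS) [MeasurableSpace ZHat] [BorelSpace ZHat] (μ : Measure ZHat)
    [IsFiniteMeasure μ] [μ.IsAddLeftInvariant] :
    ∃ m : ℕ, ∀ (p : Nat.Primes) (a b c : ℤ) (H : ℕ), Prim a b c → dsc a b c ≠ 0 →
      |dsc a b c| ≤ ((5 * H ^ 2 : ℕ) : ℤ) → ∀ j : ℕ,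
      μ {η : ZHat | vP p a b c (η p) ≤ (p : ℝ) ^ (-(j : ℤ))} ≤
        ENNReal.ofReal (((H : ℝ) + m) ^ m * (p : ℝ) ^ (-(j : ℤ))) := by
  obtain ⟨N, hN⟩ := exists_nat_ge (μ Set.univ).toReal
  refine ⟨10 * N + 4, fun p a b c H hp hd hb j => ?_⟩
  have h1 := hmeas μ {p} a b c hp hd (fun _ => j)
  simp only [Finset.mem_singleton, forall_eq, Finset.card_singleton, pow_one,
    Finset.prod_singleton] at h1
  refine h1.trans ?_
  rw [← ENNReal.ofReal_toReal (measure_ne_top μ Set.univ), ← ENNReal.ofReal_mul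
    ENNReal.toReal_nonneg]
  refine ENNReal.ofReal_le_ofReal ?_
  have hp0 : (0 : ℝ) < (p : ℝ) := by exact_mod_cast p.2.pos
  have hz : 0 < (p : ℝ) ^ (-(j : ℤ)) := zpow_pos hp0 _
  -- the square root factor
  have hsq : sqV {p} (dsc a b c) ≤ 5 * (H : ℝ) ^ 2 := by
    unfold sqV
    rw [Finset.prod_singleton]
    have h2 : ((p : ℕ) ^ padicValInt p (dsc a b c)) ∣ (dsc a b c).natAbs := by
      unfold padicValInt
      exact pow_padicValNat_dvd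
    have h3 := Nat.le_of_dvd (Int.natAbs_pos.2 hd) h2
    have h4 : ((p : ℝ) ^ padicValInt p (dsc a b c)) ≤ 5 * (H : ℝ) ^ 2 := by
      have h5 : (dsc a b c).natAbs ≤ 5 * H ^ 2 := by
        have := Int.abs_eq_natAbs (dsc a b c)
        rw [this] at hb
        exact_mod_cast hb
      have h6 : (p : ℕ) ^ padicValInt p (dsc a b c) ≤ 5 * H ^ 2 := h3.trans h5
      exact_mod_cast h6
    have h7 : (1 : ℝ) ≤ (p : ℝ) ^ padicValInt p (dsc a b c) :=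
      one_le_pow₀ (by exact_mod_cast p.2.one_le)
    calc Real.sqrt ((p : ℝ) ^ padicValInt p (dsc a b c))
        ≤ Real.sqrt (((p : ℝ) ^ padicValInt p (dsc a b c)) ^ 2) :=
          Real.sqrt_le_sqrt (by nlinarith)
      _ = (p : ℝ) ^ padicValInt p (dsc a b c) := Real.sqrt_sq (by linarith)
      _ ≤ _ := h4
  have hsq0 := (sqV_pos {p} (dsc a b c)).le
  have hN0 : (0 : ℝ) ≤ N := Nat.cast_nonneg N
  have hH0 : (0 : ℝ) ≤ H := Nat.cast_nonneg H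
  have hM : (1 : ℝ) ≤ (H : ℝ) + ((10 * N + 4 : ℕ) : ℝ) := by push_cast; linarith
  have hpow : 10 * (N : ℝ) * (H : ℝ) ^ 2 ≤ ((H : ℝ) + ((10 * N + 4 : ℕ) : ℝ)) ^ (10 * N + 4) := by
    calc 10 * (N : ℝ) * (H : ℝ) ^ 2 ≤ ((H : ℝ) + ((10 * N + 4 : ℕ) : ℝ)) ^ 3 := by
          have e : ((H : ℝ) + ((10 * N + 4 : ℕ) : ℝ)) ^ 3 =
            ((H : ℝ) + ((10 * N + 4 : ℕ) : ℝ)) * ((H : ℝ) + ((10 * N + 4 : ℕ) : ℝ)) ^ 2 := by ring
          rw [e]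
          have h8 : (10 * N : ℝ) ≤ (H : ℝ) + ((10 * N + 4 : ℕ) : ℝ) := by push_cast; linarith
          have h9 : (H : ℝ) ^ 2 ≤ ((H : ℝ) + ((10 * N + 4 : ℕ) : ℝ)) ^ 2 :=
            pow_le_pow_left₀ hH0 (by push_cast; linarith) 2
          exact mul_le_mul h8 h9 (by positivity) (by positivity)
      _ ≤ _ := pow_le_pow_right₀ hM (by omega)
  calc (μ Set.univ).toReal * (2 * (p : ℝ) ^ (-(j : ℤ)) * sqV {p} (dsc a b c))
      ≤ N * (2 * (p : ℝ) ^ (-(j : ℤ)) * (5 * (H : ℝ) ^ 2)) := by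
        refine mul_le_mul hN ?_ (by positivity) hN0
        exact mul_le_mul_of_nonneg_left hsq (by positivity)
    _ = 10 * (N : ℝ) * (H : ℝ) ^ 2 * (p : ℝ) ^ (-(j : ℤ)) := by ring
    _ ≤ _ := mul_le_mul_of_nonneg_right hpow hz.le

end Q273.QP
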